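import Mathlib
import Pool.Agent.Dilates.Count

set_option autoImplicit false

open Finset

namespace Pool.Agent.DilatesP

open Pool.Agent.Dilates

theorem sum_range_mul' (p : ℕ) (f : ℕ → ℝ) (n : ℕ) :
    ∑ w ∈ range (p * n), f w = ∑ j ∈ range n, ∑ d ∈ range p, f (p * j + d) := by
  induction n with
  | zero => simp
  | succ n ih =>
    rw [Nat.mul_succ, sum_range_add, ih, sum_range_succ]

/-- The transfer bound: summing a product of weights along `x ↦ p x` over the
`p ^ R` preimages of a point. -/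
theorem transfer (p : ℕ) (hp : 2 ≤ p) (a : ℝ → ℝ) (ha0 : ∀ x, 0 ≤ a x)
    (hper : Function.Periodic a 1) (C : ℝ)
    (hC : ∀ u : ℝ, ∑ d ∈ range p, a ((u + d) / p) ≤ C) (R : ℕ) :
    ∀ u : ℝ, ∑ w ∈ range (p ^ R), ∏ i ∈ range R, a (p ^ i * ((u + w) / p ^ R)) ≤ C ^ R := by
  have hC0 : 0 ≤ C := le_trans (sum_nonneg fun d _ => ha0 _) (hC 0)
  have hp0 : (p : ℝ) ≠ 0 := by
    have : (0 : ℝ) < p := by exact_mod_cast (by omega : 0 < p)
    exact this.ne'
  induction R with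
  | zero => intro u; simp
  | succ R ih =>
    intro u
    have key : ∀ (v : ℝ) (j : ℕ),
        ∏ i ∈ range (R + 1), a (p ^ i * ((v + j) / p ^ R)) =
          (∏ i ∈ range R, a (p ^ i * ((v + j) / p ^ R))) * a v := by
      intro v j
      rw [prod_range_succ]
      congr 1
      have h2 : (p : ℝ) ^ R ≠ 0 := pow_ne_zero _ hp0
      have : (p : ℝ) ^ R * ((v + j) / p ^ R) = v + j * 1 := by
        field_simp
      rw [this]
      exact (hper.nat_mul j) v
    have e0 : ∀ j d : ℕ, ∏ i ∈ range (R + 1),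
        a (p ^ i * ((u + ((p * j + d : ℕ) : ℝ)) / p ^ (R + 1)))
        = (∏ i ∈ range R, a (p ^ i * (((u + d) / p + j) / p ^ R))) * a ((u + d) / p) := by
      intro j d
      rw [← key]
      refine prod_congr rfl fun i _ => ?_
      congr 2
      push_cast
      rw [pow_succ]
      field_simp
      ring
    have hsum : ∑ w ∈ range (p ^ (R + 1)), ∏ i ∈ range (R + 1),
        a (p ^ i * ((u + w) / p ^ (R + 1)))
        = ∑ d ∈ range p,
          (∑ j ∈ range (p ^ R), ∏ i ∈ range R, a (p ^ i * (((u + d) / p + j) / p ^ R)))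
            * a ((u + d) / p) := by
      rw [show p ^ (R + 1) = p * p ^ R from by ring]
      rw [sum_range_mul' p
        (fun w => ∏ i ∈ range (R + 1), a (p ^ i * ((u + w) / p ^ (R + 1))))]
      rw [sum_comm]
      refine sum_congr rfl fun d _ => ?_
      rw [sum_mul]
      exact sum_congr rfl fun j _ => e0 j d
    rw [hsum]
    calc _ ≤ ∑ d ∈ range p, C ^ R * a ((u + d) / p) := by
            refine sum_le_sum fun d _ => mul_le_mul_of_nonneg_right (ih _) (ha0 _)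
      _ = C ^ R * ∑ d ∈ range p, a ((u + d) / p) := by rw [mul_sum]
      _ ≤ C ^ R * C := mul_le_mul_of_nonneg_left (hC u) (pow_nonneg hC0 R)
      _ = C ^ (R + 1) := by ring

/-- Counting by exponential weights. -/
theorem card_le_of_exp (p : ℕ) (hp : 2 ≤ p) (a : ℝ → ℝ) (R : ℕ) (C t : ℝ) (s : Finset ℕ)
    (hs : s ⊆ range (p ^ R))
    (ha0 : ∀ x, 0 ≤ a x) (hper : Function.Periodic a 1)
    (hC : ∀ u : ℝ, ∑ d ∈ range p, a ((u + d) / p) ≤ C) (ht : 0 < t)
    (hst : ∀ w ∈ s, t ≤ ∏ i ∈ range R, a (p ^ i * ((w : ℝ) / p ^ R))) :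
    (s.card : ℝ) ≤ C ^ R / t := by
  rw [le_div_iff₀ ht]
  calc (s.card : ℝ) * t = ∑ w ∈ s, t := by simp
    _ ≤ ∑ w ∈ s, ∏ i ∈ range R, a (p ^ i * ((w : ℝ) / p ^ R)) := sum_le_sum hst
    _ ≤ ∑ w ∈ range (p ^ R), ∏ i ∈ range R, a (p ^ i * ((w : ℝ) / p ^ R)) := by
        refine sum_le_sum_of_subset_of_nonneg hs fun w _ _ => prod_nonneg fun i _ => ha0 _
    _ ≤ C ^ R := by
        have := transfer p hp a ha0 hper C hC R 0
        simpa using this

/-- The exponential sum along the orbit of `x ↦ p x`. -/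
noncomputable def S (p : ℕ) (k : ℤ) (L : ℕ) (z : ℝ) : ℂ := ∑ i ∈ range L, e (k * (p ^ i * z))

theorem S_add_int (p : ℕ) (k : ℤ) (L : ℕ) (z : ℝ) (n : ℤ) : S p k L (z + n) = S p k L z := by
  unfold S
  refine sum_congr rfl fun i _ => ?_
  have : (k : ℝ) * (p ^ i * (z + n)) = k * (p ^ i * z) + ((k * p ^ i * n : ℤ) : ℝ) := by
    push_cast; ring
  rw [this, e_add_int]

theorem norm_S_le (p : ℕ) (k : ℤ) (L : ℕ) (z : ℝ) : ‖S p k L z‖ ≤ L := by
  unfold S
  refine (norm_sum_le _ _).trans ?_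
  simp [norm_e]

theorem sum_pow_le (p : ℕ) (hp : 2 ≤ p) (L : ℕ) : ∑ i ∈ range L, (p : ℝ) ^ i ≤ p ^ L := by
  have hp' : (2 : ℝ) ≤ p := by exact_mod_cast hp
  rw [geom_sum_eq (by linarith)]
  rw [div_le_iff₀ (by linarith)]
  have : (1 : ℝ) ≤ p ^ L := one_le_pow₀ (by linarith)
  nlinarith

theorem norm_S_sub (p : ℕ) (hp : 2 ≤ p) (k : ℤ) (L : ℕ) (z z' : ℝ) :
    ‖S p k L z - S p k L z'‖ ≤ 2 * Real.pi * |(k : ℝ)| * (p ^ L * |z - z'|) := by
  have hp' : (2 : ℝ) ≤ p := by exact_mod_cast hp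
  unfold S
  rw [← sum_sub_distrib]
  refine (norm_sum_le _ _).trans ?_
  calc ∑ i ∈ range L, ‖e (k * (p ^ i * z)) - e (k * (p ^ i * z'))‖
      ≤ ∑ i ∈ range L, (2 * Real.pi * |(k : ℝ)| * |z - z'|) * p ^ i := by
        refine sum_le_sum fun i _ => (norm_e_sub _ _).trans (le_of_eq ?_)
        rw [show (k : ℝ) * (p ^ i * z) - k * (p ^ i * z') = k * (p ^ i * (z - z')) by ring,
          abs_mul, abs_mul, abs_of_pos (pow_pos (by linarith) i : (0 : ℝ) < p ^ i)]
        ring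
    _ = (2 * Real.pi * |(k : ℝ)| * |z - z'|) * ∑ i ∈ range L, (p : ℝ) ^ i := by
        rw [mul_sum]
    _ ≤ (2 * Real.pi * |(k : ℝ)| * |z - z'|) * p ^ L := by
        refine mul_le_mul_of_nonneg_left (sum_pow_le p hp L) (by positivity)
    _ = _ := by ring

theorem e_eq_one_iff (t : ℝ) : e t = 1 ↔ ∃ n : ℤ, t = n := by
  constructor
  · intro h
    unfold e at h
    rw [Complex.exp_eq_one_iff] at h
    obtain ⟨n, hn⟩ := h
    refine ⟨n, ?_⟩
    have h1 : ((2 * Real.pi * t : ℝ) : ℂ) * Complex.I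
        = ((2 * Real.pi * (n : ℝ) : ℝ) : ℂ) * Complex.I := by
      rw [hn]; push_cast; ring
    have h2 := mul_right_cancel₀ Complex.I_ne_zero h1
    have h3 : 2 * Real.pi * t = 2 * Real.pi * (n : ℝ) := by exact_mod_cast h2
    exact mul_left_cancel₀ (by positivity) h3
  · rintro ⟨n, rfl⟩
    exact e_int n

theorem e_nat_mul (n : ℕ) (t : ℝ) : e (n * t) = e t ^ n := by
  induction n with
  | zero => simpa using e_int 0
  | succ n ih =>
    rw [pow_succ, ← ih, ← e_add]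
    congr 1; push_cast; ring

/-- Summing a character over the `p` preimages of a point. -/
theorem sum_e_preimages (p : ℕ) (hp : 2 ≤ p) (k : ℤ) (hk : ¬ (p : ℤ) ∣ k) (u : ℝ) :
    ∑ d ∈ range p, e (k * ((u + d) / p)) = 0 := by
  have hp0 : (p : ℝ) ≠ 0 := by
    have : (0 : ℝ) < p := by exact_mod_cast (by omega : 0 < p)
    exact this.ne'
  have h1 : ∀ d : ℕ, e (k * ((u + d) / p)) = e (k * (u / p)) * e (k / p) ^ d := by
    intro d
    rw [← e_nat_mul, ← e_add]
    congr 1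
    field_simp
  simp only [h1]
  rw [← mul_sum]
  have hne : e ((k : ℝ) / p) ≠ 1 := by
    intro h
    obtain ⟨n, hn⟩ := (e_eq_one_iff _).mp h
    apply hk
    rw [div_eq_iff hp0] at hn
    refine ⟨n, ?_⟩
    have h2 : (k : ℝ) = ((p * n : ℤ) : ℝ) := by rw [hn]; push_cast; ring
    exact_mod_cast h2
  rw [geom_sum_eq hne]
  have h3 : e ((k : ℝ) / p) ^ p = 1 := by
    rw [← e_nat_mul]
    have : (p : ℝ) * (k / p) = ((k : ℤ) : ℝ) := by field_simp
    rw [this, e_int]
  rw [h3]; simp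

/-- One-sided large deviation count. -/
theorem ld_one (p : ℕ) (hp : 2 ≤ p) (k : ℤ) (hk : ¬ (p : ℤ) ∣ k) (θ : ℂ) (hθ : ‖θ‖ ≤ 1)
    (L : ℕ) (t : ℝ) (ht : 0 ≤ t) :
    (((range (p ^ L)).filter
        (fun w : ℕ => t * L ≤ (θ * S p k L ((w : ℝ) / p ^ L)).re)).card : ℝ)
      ≤ p ^ L * Real.exp (-(t ^ 2 / 2) * L) := by
  set φ : ℝ → ℝ := fun v => (θ * e (k * v)).re with hφ
  have hφ1 : ∀ v, |φ v| ≤ 1 := by
    intro v
    refine (Complex.abs_re_le_norm _).trans ?_
    rw [norm_mul, norm_e, mul_one]; exact hθ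
  have hφs : ∀ u : ℝ, ∑ d ∈ range p, φ ((u + d) / p) = 0 := by
    intro u
    simp only [hφ]
    rw [← Complex.re_sum, ← mul_sum, sum_e_preimages p hp k hk u]
    simp
  have hper : Function.Periodic (fun v => Real.exp (t * φ v)) 1 := by
    intro v
    have : φ (v + 1) = φ v := by
      simp only [hφ]
      have h1 : (k : ℝ) * (v + 1) = k * v + ((k : ℤ) : ℝ) := by ring
      rw [h1, e_add_int]
    simp [this]
  have hC : ∀ u : ℝ, ∑ d ∈ range p, Real.exp (t * φ ((u + d) / p))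
      ≤ p * Real.exp (t ^ 2 / 2) := by
    intro u
    calc ∑ d ∈ range p, Real.exp (t * φ ((u + d) / p))
        ≤ ∑ d ∈ range p, (Real.cosh t + φ ((u + d) / p) * Real.sinh t) := by
          refine sum_le_sum fun d _ => ?_
          have := Real.exp_mul_le_cosh_add_mul_sinh (hφ1 ((u + d) / p)) t
          rwa [mul_comm] at this
      _ = p * Real.cosh t := by
          rw [sum_add_distrib, ← sum_mul, hφs]; simp
      _ ≤ p * Real.exp (t ^ 2 / 2) := by
          refine mul_le_mul_of_nonneg_left (Real.cosh_le_exp_half_sq t) (by positivity)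
  have := card_le_of_exp p hp (fun v => Real.exp (t * φ v)) L (p * Real.exp (t ^ 2 / 2))
    (Real.exp (t * (t * L)))
    ((range (p ^ L)).filter (fun w : ℕ => t * L ≤ (θ * S p k L ((w : ℝ) / p ^ L)).re))
    (filter_subset _ _) (fun x => (Real.exp_pos _).le) hper hC (Real.exp_pos _) ?_
  · refine this.trans (le_of_eq ?_)
    rw [mul_pow, ← Real.exp_nat_mul, mul_div_assoc, ← Real.exp_sub]
    congr 2
    ring
  · intro w hw
    rw [mem_filter] at hw
    rw [← Real.exp_sum, ← mul_sum]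
    apply Real.exp_le_exp.mpr
    have h5 : ∑ i ∈ range L, φ (p ^ i * ((w : ℝ) / p ^ L))
        = (θ * S p k L ((w : ℝ) / p ^ L)).re := by
      unfold S
      rw [mul_sum, Complex.re_sum]
    rw [h5]
    exact mul_le_mul_of_nonneg_left hw.2 ht

end Pool.Agent.DilatesP
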