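import Mathlib
import Pool.Agent.DilatesP.Transfer

set_option autoImplicit false

open Finset

namespace Pool.Agent.DilatesP

open Pool.Agent.Dilates

/-- Two-sided large deviation count. -/
theorem ld (p : ℕ) (hp : 2 ≤ p) (k : ℤ) (hk : ¬ (p : ℤ) ∣ k) (L : ℕ) (t : ℝ) (ht : 0 ≤ t) :
    (((range (p ^ L)).filter
        (fun w : ℕ => 2 * t * L < ‖S p k L ((w : ℝ) / p ^ L)‖)).card : ℝ)
      ≤ 4 * (p ^ L * Real.exp (-(t ^ 2 / 2) * L)) := by
  set A : ℂ → Finset ℕ := fun θ =>
    (range (p ^ L)).filter (fun w : ℕ => t * L ≤ (θ * S p k L ((w : ℝ) / p ^ L)).re) with hA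
  have hsub : (range (p ^ L)).filter (fun w : ℕ => 2 * t * L < ‖S p k L ((w : ℝ) / p ^ L)‖)
      ⊆ (A 1 ∪ A (-1)) ∪ (A Complex.I ∪ A (-Complex.I)) := by
    intro w hw
    rw [mem_filter] at hw
    obtain ⟨hw1, hw2⟩ := hw
    by_contra hcon
    simp only [hA, mem_union, mem_filter, hw1, true_and, not_or, not_le] at hcon
    obtain ⟨⟨h1, h2⟩, h3, h4⟩ := hcon
    have h5 := Complex.norm_le_abs_re_add_abs_im (S p k L ((w : ℝ) / p ^ L))
    simp at h1 h2 h3 h4
    have h6 : |(S p k L ((w : ℝ) / p ^ L)).re| < t * L := abs_lt.mpr ⟨by linarith, h1⟩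
    have h7 : |(S p k L ((w : ℝ) / p ^ L)).im| < t * L := abs_lt.mpr ⟨by linarith, h4⟩
    linarith
  have hc : ∀ θ : ℂ, ‖θ‖ ≤ 1 → ((A θ).card : ℝ) ≤ p ^ L * Real.exp (-(t ^ 2 / 2) * L) :=
    fun θ hθ => ld_one p hp k hk θ hθ L t ht
  have h1 := hc 1 (by simp)
  have h2 := hc (-1) (by simp)
  have h3 := hc Complex.I (by simp)
  have h4 := hc (-Complex.I) (by simp)
  have h5 : ((A 1 ∪ A (-1)) ∪ (A Complex.I ∪ A (-Complex.I))).card
      ≤ (A 1).card + (A (-1)).card + ((A Complex.I).card + (A (-Complex.I)).card) :=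
    (card_union_le _ _).trans (Nat.add_le_add (card_union_le _ _) (card_union_le _ _))
  have h6 := (card_le_card hsub).trans h5
  have h7 : (((range (p ^ L)).filter
      (fun w : ℕ => 2 * t * L < ‖S p k L ((w : ℝ) / p ^ L)‖)).card : ℝ)
      ≤ (A 1).card + (A (-1)).card + ((A Complex.I).card + (A (-Complex.I)).card) := by
    exact_mod_cast h6
  linarith

/-- A fraction with denominator `p` that is not an integer has norm at least `1 / p`. -/
theorem norm_frac_ge (p : ℕ) (hp : 2 ≤ p) (a : ℤ) (ha : ¬ (p : ℤ) ∣ a) :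
    1 / (p : ℝ) ≤ ‖(((a : ℝ) / p : ℝ) : UnitAddCircle)‖ := by
  have hp0 : (0 : ℝ) < p := by exact_mod_cast (by omega : 0 < p)
  rw [UnitAddCircle.norm_eq]
  have h1 : (a : ℝ) / p - round ((a : ℝ) / p) = ((a - p * round ((a : ℝ) / p) : ℤ) : ℝ) / p := by
    push_cast
    field_simp
  rw [h1, abs_div, abs_of_pos hp0]
  gcongr
  have h2 : a - p * round ((a : ℝ) / p) ≠ 0 := by
    intro h
    apply ha
    exact ⟨round ((a : ℝ) / p), by linarith⟩
  exact_mod_cast Int.one_le_abs h2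

theorem nK_spread (p : ℕ) (hp : 2 ≤ p) (K : ℕ) (hK : Nat.Coprime K p) (u : ℝ) (d d' : ℕ)
    (hd : d < p) (hd' : d' < p) (hne : d ≠ d') :
    1 / (p : ℝ) ≤ nK K ((u + d) / p) + nK K ((u + d') / p) := by
  have hp0 : (0 : ℝ) < p := by exact_mod_cast (by omega : 0 < p)
  have hdvd : ¬ (p : ℤ) ∣ (K : ℤ) * ((d : ℤ) - d') := by
    intro h
    have hc : IsCoprime (p : ℤ) (K : ℤ) := Nat.isCoprime_iff_coprime.mpr hK.symm
    have h1 := hc.dvd_of_dvd_mul_left h
    obtain ⟨n, hn⟩ := h1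
    have h2 : n = 0 := by
      have a1 : (p : ℤ) * n < p := by omega
      have a2 : -(p : ℤ) < p * n := by omega
      have hpz : (0 : ℤ) < p := by omega
      by_contra hn0
      rcases lt_or_gt_of_ne hn0 with h0 | h0
      · nlinarith
      · nlinarith
    rw [h2] at hn
    omega
  have h := norm_frac_ge p hp ((K : ℤ) * ((d : ℤ) - d')) hdvd
  refine h.trans ?_
  have h3 : ((((K : ℤ) * ((d : ℤ) - d') : ℤ) : ℝ) / p : ℝ)
      = (K : ℝ) * ((u + d) / p) - K * ((u + d') / p) := by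
    push_cast; field_simp; ring
  rw [h3, AddCircle.coe_sub]
  unfold nK
  exact norm_sub_le _ _

/-- Counting the words of low complexity. -/
theorem lc_count (p : ℕ) (hp : 2 ≤ p) (K : ℕ) (hK : Nat.Coprime K p) (R : ℕ) (Λ J : ℝ)
    (hΛ : 0 ≤ Λ) (s : Finset ℕ)
    (hs : s ⊆ range (p ^ R))
    (hJ : ∀ w ∈ s, ∑ i ∈ range R, nK K (p ^ i * ((w : ℝ) / p ^ R)) ≤ J) :
    (s.card : ℝ) ≤ Real.exp (Λ * J) * (1 + p * Real.exp (-(Λ / (2 * p)))) ^ R := by
  have hp0 : (0 : ℝ) < p := by exact_mod_cast (by omega : 0 < p)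
  have hper : Function.Periodic (fun x => Real.exp (-(Λ * nK K x))) 1 := by
    intro x; simp only; rw [nK_periodic K x]
  have hsmall : ∀ y : ℝ, 1 / (2 * p) ≤ nK K y →
      Real.exp (-(Λ * nK K y)) ≤ Real.exp (-(Λ / (2 * p))) := by
    intro y hy
    apply Real.exp_le_exp.mpr
    have h1 := mul_le_mul_of_nonneg_left hy hΛ
    rw [mul_one_div] at h1
    linarith
  have hone : ∀ y : ℝ, Real.exp (-(Λ * nK K y)) ≤ 1 := by
    intro y
    apply Real.exp_le_one_iff.mpr
    have := mul_nonneg hΛ (nK_nonneg K y)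
    linarith
  have hC : ∀ u : ℝ, ∑ d ∈ range p, Real.exp (-(Λ * nK K ((u + d) / p)))
      ≤ 1 + p * Real.exp (-(Λ / (2 * p))) := by
    intro u
    by_cases hex : ∃ d₀ ∈ range p, nK K ((u + (d₀ : ℕ)) / p) < 1 / (2 * p)
    · obtain ⟨d₀, hd₀, hlt⟩ := hex
      rw [← add_sum_erase _ _ hd₀]
      refine add_le_add (hone _) ?_
      calc ∑ d ∈ (range p).erase d₀, Real.exp (-(Λ * nK K ((u + d) / p)))
          ≤ ∑ d ∈ (range p).erase d₀, Real.exp (-(Λ / (2 * p))) := by
            refine sum_le_sum fun d hd => hsmall _ ?_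
            rw [mem_erase, mem_range] at hd
            have h1 := nK_spread p hp K hK u d d₀ hd.2 (mem_range.mp hd₀) hd.1
            have h2 : 1 / (p : ℝ) = 1 / (2 * p) + 1 / (2 * p) := by field_simp; norm_num
            linarith
        _ = ((range p).erase d₀).card * Real.exp (-(Λ / (2 * p))) := by
            rw [sum_const, nsmul_eq_mul]
        _ ≤ p * Real.exp (-(Λ / (2 * p))) := by
            gcongr
            exact (card_erase_le).trans (by simp)
    · push Not at hex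
      calc ∑ d ∈ range p, Real.exp (-(Λ * nK K ((u + d) / p)))
          ≤ ∑ d ∈ range p, Real.exp (-(Λ / (2 * p))) :=
            sum_le_sum fun d hd => hsmall _ (hex d hd)
        _ = p * Real.exp (-(Λ / (2 * p))) := by
            rw [sum_const, nsmul_eq_mul, card_range]
        _ ≤ 1 + p * Real.exp (-(Λ / (2 * p))) := by linarith
  have := card_le_of_exp p hp (fun x => Real.exp (-(Λ * nK K x))) R
    (1 + p * Real.exp (-(Λ / (2 * p))))
    (Real.exp (-(Λ * J))) s hs (fun x => (Real.exp_pos _).le) hper hC (Real.exp_pos _) ?_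
  · refine this.trans (le_of_eq ?_)
    rw [div_eq_mul_inv, ← Real.exp_neg, neg_neg, mul_comm]
  · intro w hw
    rw [← Real.exp_sum]
    apply Real.exp_le_exp.mpr
    rw [sum_neg_distrib, ← mul_sum]
    have := mul_le_mul_of_nonneg_left (hJ w hw) hΛ
    linarith

theorem fiber (p : ℕ) (hp : 2 ≤ p) (b q L m : ℕ) (hbq : Nat.Coprime b q) (hq : p ^ L ≤ q)
    (hq2 : q < p ^ (L + 1)) (hLm : L ≤ m) (W : ℕ) :
    ((range (p ^ m)).filter (fun c => p ^ L * (c * b % q) / q = W)).card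
      ≤ (p + 1) * (2 * p ^ (m - L)) := by
  have hp0 : 0 < p := by omega
  have hpL : 0 < p ^ L := Nat.pow_pos hp0
  have hq0 : 0 < q := lt_of_lt_of_le hpL hq
  set t : Finset ℕ := Icc (W * q / p ^ L) (W * q / p ^ L + p) with ht
  have htc : t.card = p + 1 := by
    rw [ht, Nat.card_Icc]; omega
  have hmaps : ∀ c ∈ (range (p ^ m)).filter (fun c => p ^ L * (c * b % q) / q = W),
      (c * b % q) ∈ t := by
    intro c hc
    rw [mem_filter] at hc
    set r := c * b % q with hr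
    have h1 : W * q ≤ p ^ L * r := by
      have := Nat.div_mul_le_self (p ^ L * r) q
      rw [hc.2] at this; exact this
    have h2 : p ^ L * r < (W + 1) * q := by
      have h3 := Nat.lt_mul_div_succ (p ^ L * r) hq0
      rw [hc.2] at h3
      linarith
    rw [ht, mem_Icc]
    constructor
    · exact Nat.div_le_of_le_mul h1
    · have h4 := Nat.lt_mul_div_succ (W * q) hpL
      have h5 : p ^ L * r < p ^ L * (W * q / p ^ L + (p + 1)) := by
        have h6 : p ^ (L + 1) = p * p ^ L := by ring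
        nlinarith
      have := Nat.lt_of_mul_lt_mul_left h5
      omega
  have hfib : ∀ r ∈ t, (((range (p ^ m)).filter (fun c => p ^ L * (c * b % q) / q = W)).filter
      (fun c => c * b % q = r)).card ≤ 2 * p ^ (m - L) := by
    intro r _
    have h1 : (((range (p ^ m)).filter (fun c => p ^ L * (c * b % q) / q = W)).filter
      (fun c => c * b % q = r)).card ≤ (range (p ^ m / q + 1)).card := by
      apply card_le_card_of_injOn (fun c => c / q)
      · intro c hc
        simp only [coe_filter, mem_filter, mem_range, Set.mem_ofPred_eq] at hc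
        simp only [coe_range, Set.mem_Iio]
        exact Nat.lt_succ_of_le (Nat.div_le_div_right hc.1.1.le)
      · intro c hc c' hc' heq
        simp only [coe_filter, mem_filter, mem_range, Set.mem_ofPred_eq] at hc hc'
        have h2 : c * b ≡ c' * b [MOD q] := by
          unfold Nat.ModEq; rw [hc.2, hc'.2]
        have h3 : c ≡ c' [MOD q] := Nat.ModEq.cancel_right_of_coprime (by
          rw [Nat.gcd_comm]; exact hbq) h2
        unfold Nat.ModEq at h3
        simp only at heq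
        rw [← Nat.div_add_mod c q, ← Nat.div_add_mod c' q, heq, h3]
    refine h1.trans ?_
    rw [card_range]
    have h2 : p ^ m / q ≤ p ^ (m - L) := by
      rw [← Nat.pow_div hLm hp0]
      exact Nat.div_le_div_left hq hpL
    have h3 : 1 ≤ p ^ (m - L) := Nat.one_le_pow _ _ hp0
    omega
  have := card_le_mul_card_image_of_maps_to hmaps (2 * p ^ (m - L)) hfib
  rw [htc] at this
  linarith

/-- The number of multipliers that are bad for a given reduced fraction. -/
theorem bad_count (p : ℕ) (hp : 2 ≤ p) (k : ℤ) (hk : ¬ (p : ℤ) ∣ k) (b q L m : ℕ)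
    (hbq : Nat.Coprime b q) (hq : p ^ L ≤ q)
    (hq2 : q < p ^ (L + 1)) (hLm : L ≤ m) (t : ℝ) (ht : 0 ≤ t)
    (htL : 2 * Real.pi * |(k : ℝ)| ≤ 2 * t * L) :
    (((range (p ^ m)).filter
        (fun c : ℕ => 4 * t * L < ‖S p k L (c * ((b : ℝ) / q))‖)).card : ℝ)
      ≤ 8 * (p + 1) * (p ^ m * Real.exp (-(t ^ 2 / 2) * L)) := by
  have hp0 : 0 < p := by omega
  have hp0' : (0 : ℝ) < p := by exact_mod_cast hp0
  have hpL : 0 < p ^ L := Nat.pow_pos hp0
  have hq0 : 0 < q := lt_of_lt_of_le hpL hq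
  have hq0' : (0 : ℝ) < q := by exact_mod_cast hq0
  set T : Finset ℕ :=
    (range (p ^ L)).filter (fun w : ℕ => 2 * t * L < ‖S p k L ((w : ℝ) / p ^ L)‖) with hT
  have hmaps : ∀ c ∈ (range (p ^ m)).filter
      (fun c : ℕ => 4 * t * L < ‖S p k L (c * ((b : ℝ) / q))‖),
      p ^ L * (c * b % q) / q ∈ T := by
    intro c hc
    rw [mem_filter] at hc
    set r := c * b % q with hr
    set W := p ^ L * r / q with hW
    have hrq : r < q := Nat.mod_lt _ hq0
    have hWlt : W < p ^ L := by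
      rw [hW, Nat.div_lt_iff_lt_mul hq0]
      exact Nat.mul_lt_mul_of_pos_left hrq hpL
    rw [hT, mem_filter, mem_range]
    refine ⟨hWlt, ?_⟩
    obtain ⟨j, hj⟩ : ∃ j : ℕ, j = c * b / q := ⟨_, rfl⟩
    have h1 : (c : ℝ) * ((b : ℝ) / q) = (r : ℝ) / q + ((j : ℤ) : ℝ) := by
      have h2 : ((c * b : ℕ) : ℝ) = (q : ℝ) * (j : ℝ) + (r : ℝ) := by
        rw [hr, hj]; exact_mod_cast (Nat.div_add_mod (c * b) q).symm
      push_cast at h2 ⊢
      field_simp
      linarith
    have h3 : S p k L (c * ((b : ℝ) / q)) = S p k L ((r : ℝ) / q) := by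
      rw [h1, S_add_int]
    have hpp : (0 : ℝ) < p ^ L := by positivity
    have h4 : |(r : ℝ) / q - (W : ℝ) / p ^ L| ≤ 1 / p ^ L := by
      have h5 : (W : ℝ) * q ≤ p ^ L * r := by
        have := Nat.div_mul_le_self (p ^ L * r) q
        exact_mod_cast this
      have h6 : (p : ℝ) ^ L * r < q * (W + 1) := by
        have := Nat.lt_mul_div_succ (p ^ L * r) hq0
        exact_mod_cast this
      rw [abs_le]
      constructor
      · have : (W : ℝ) / p ^ L ≤ (r : ℝ) / q := by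
          rw [div_le_div_iff₀ hpp hq0']; linarith
        have : (0 : ℝ) < 1 / p ^ L := by positivity
        linarith
      · rw [sub_le_iff_le_add, ← add_div, div_le_div_iff₀ hq0' hpp]
        linarith
    have h7 := norm_S_sub p hp k L ((r : ℝ) / q) ((W : ℝ) / p ^ L)
    have h8 : 2 * Real.pi * |(k : ℝ)| * (p ^ L * |(r : ℝ) / q - (W : ℝ) / p ^ L|)
        ≤ 2 * Real.pi * |(k : ℝ)| := by
      have h9 : (p : ℝ) ^ L * |(r : ℝ) / q - (W : ℝ) / p ^ L| ≤ 1 := by
        calc (p : ℝ) ^ L * |(r : ℝ) / q - (W : ℝ) / p ^ L| ≤ p ^ L * (1 / p ^ L) := by gcongr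
          _ = 1 := by field_simp
      calc 2 * Real.pi * |(k : ℝ)| * (p ^ L * |(r : ℝ) / q - (W : ℝ) / p ^ L|)
          ≤ 2 * Real.pi * |(k : ℝ)| * 1 := by gcongr
        _ = _ := mul_one _
    have h10 := norm_sub_norm_le (S p k L ((r : ℝ) / q)) (S p k L ((W : ℝ) / p ^ L))
    have h11 := hc.2
    rw [h3] at h11
    linarith
  have hfib : ∀ W ∈ T, (((range (p ^ m)).filter
      (fun c : ℕ => 4 * t * L < ‖S p k L (c * ((b : ℝ) / q))‖)).filter
      (fun c => p ^ L * (c * b % q) / q = W)).card ≤ (p + 1) * (2 * p ^ (m - L)) := by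
    intro W _
    refine le_trans (card_le_card ?_) (fiber p hp b q L m hbq hq hq2 hLm W)
    intro c hc
    simp only [mem_filter] at hc ⊢
    exact ⟨hc.1.1, hc.2⟩
  have h1 := card_le_mul_card_image_of_maps_to hmaps ((p + 1) * (2 * p ^ (m - L))) hfib
  have h2 : (T.card : ℝ) ≤ 4 * (p ^ L * Real.exp (-(t ^ 2 / 2) * L)) := ld p hp k hk L t ht
  have h3 : (((range (p ^ m)).filter
      (fun c : ℕ => 4 * t * L < ‖S p k L (c * ((b : ℝ) / q))‖)).card : ℝ)
      ≤ ((p + 1) * (2 * p ^ (m - L))) * T.card := by exact_mod_cast h1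
  refine h3.trans ?_
  have h4 : (p : ℝ) ^ m = p ^ (m - L) * p ^ L := by
    rw [← pow_add, Nat.sub_add_cancel hLm]
  calc ((p + 1) * (2 * p ^ (m - L)) : ℝ) * T.card
      ≤ ((p + 1) * (2 * p ^ (m - L))) * (4 * (p ^ L * Real.exp (-(t ^ 2 / 2) * L))) := by
        gcongr
    _ = 8 * (p + 1) * (p ^ m * Real.exp (-(t ^ 2 / 2) * L)) := by rw [h4]; ring

end Pool.Agent.DilatesP
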