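import Mathlib
import Pool.Agent.DilatesP.Count

set_option autoImplicit false

open Finset

namespace Pool.Agent.DilatesP

open Pool.Agent.Dilates

theorem sum_nK_le (p : ℕ) (hp : 2 ≤ p) (K n : ℕ) (x y : ℝ) :
    ∑ i ∈ range n, nK K (p ^ i * x)
      ≤ ∑ i ∈ range n, nK K (p ^ i * y) + K * (p ^ n * |x - y|) := by
  have hp0' : (0 : ℝ) < p := by exact_mod_cast (by omega : 0 < p)
  calc ∑ i ∈ range n, nK K (p ^ i * x)
      ≤ ∑ i ∈ range n, (nK K (p ^ i * y) + (K * |x - y|) * p ^ i) := by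
        refine sum_le_sum fun i _ => (nK_sub_le K _ (p ^ i * y)).trans (le_of_eq ?_)
        rw [← mul_sub, abs_mul, abs_of_pos (pow_pos hp0' i : (0 : ℝ) < p ^ i)]
        ring
    _ = ∑ i ∈ range n, nK K (p ^ i * y) + (K * |x - y|) * ∑ i ∈ range n, (p : ℝ) ^ i := by
        rw [sum_add_distrib, mul_sum]
    _ ≤ ∑ i ∈ range n, nK K (p ^ i * y) + (K * |x - y|) * p ^ n := by
        gcongr
        exact sum_pow_le p hp n
    _ = _ := by ring

/-- Reduced fractions of level `L` whose orbit under `x ↦ p x` mostly stays near `(1/K) ℤ`. -/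
noncomputable def frac (p : ℕ) (K : ℕ) (δ : ℝ) (L : ℕ) : Finset (ℕ × ℕ) :=
  open Classical in
  ((range (p ^ (L + 1))) ×ˢ (Ico (p ^ L) (p ^ (L + 1)))).filter (fun w =>
    w.1 < w.2 ∧ Nat.Coprime w.1 w.2 ∧
      ∑ i ∈ range (2 * L), nK K (p ^ i * ((w.1 : ℝ) / w.2)) ≤ 2 * δ * L + K)

theorem floor_dist (p : ℕ) (hp : 2 ≤ p) (b q R : ℕ) (hq : 0 < q) :
    |((p ^ R * b / q : ℕ) : ℝ) / p ^ R - (b : ℝ) / q| ≤ 1 / p ^ R := by
  have hp0' : (0 : ℝ) < p := by exact_mod_cast (by omega : 0 < p)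
  have hq0' : (0 : ℝ) < q := by exact_mod_cast hq
  set W := p ^ R * b / q with hW
  have h5 : (W : ℝ) * q ≤ p ^ R * b := by
    have := Nat.div_mul_le_self (p ^ R * b) q
    exact_mod_cast this
  have h6 : (p : ℝ) ^ R * b < q * (W + 1) := by
    have := Nat.lt_mul_div_succ (p ^ R * b) hq
    exact_mod_cast this
  have hpp : (0 : ℝ) < p ^ R := by positivity
  rw [abs_sub_comm, abs_le]
  constructor
  · have : (W : ℝ) / p ^ R ≤ (b : ℝ) / q := by
      rw [div_le_div_iff₀ hpp hq0']; linarith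
    have : (0 : ℝ) < 1 / p ^ R := by positivity
    linarith
  · rw [sub_le_iff_le_add, ← add_div, div_le_div_iff₀ hq0' hpp]
    linarith

theorem frac_card (p : ℕ) (hp : 2 ≤ p) (K : ℕ) (hK : Nat.Coprime K p) (δ : ℝ) (L : ℕ) (Λ : ℝ)
    (hΛ : 0 ≤ Λ) :
    ((frac p K δ L).card : ℝ) ≤
      Real.exp (Λ * (2 * δ * L + 2 * K + 1))
        * (1 + p * Real.exp (-(Λ / (2 * p)))) ^ (2 * L + 2) := by
  classical
  have hp0 : 0 < p := by omega
  have hp0' : (0 : ℝ) < p := by exact_mod_cast hp0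
  have hp1' : (1 : ℝ) ≤ p := by exact_mod_cast (by omega : 1 ≤ p)
  set R := 2 * L + 2 with hR
  have hpR : 0 < p ^ R := Nat.pow_pos hp0
  set s : Finset ℕ := (range (p ^ R)).filter (fun w : ℕ =>
    ∑ i ∈ range R, nK K (p ^ i * ((w : ℝ) / p ^ R)) ≤ 2 * δ * L + 2 * K + 1) with hs
  have hcard : (frac p K δ L).card ≤ s.card := by
    apply card_le_card_of_injOn (fun w => p ^ R * w.1 / w.2)
    · rintro ⟨b, q⟩ hw
      simp only [frac, coe_filter, mem_product, mem_range, mem_Ico, Set.mem_ofPred_eq] at hw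
      obtain ⟨⟨_, hq1, hq2⟩, hbq, hcop, hsum⟩ := hw
      have hq0 : 0 < q := lt_of_lt_of_le (Nat.pow_pos hp0) hq1
      simp only [hs, coe_filter, mem_range, Set.mem_ofPred_eq]
      refine ⟨?_, ?_⟩
      · rw [Nat.div_lt_iff_lt_mul hq0]
        exact Nat.mul_lt_mul_of_pos_left hbq hpR
      · have hd := floor_dist p hp b q R hq0
        have h1 := sum_nK_le p hp K (2 * L) (((p ^ R * b / q : ℕ) : ℝ) / p ^ R) ((b : ℝ) / q)
        have h2 : (K : ℝ) * (p ^ (2 * L) * |((p ^ R * b / q : ℕ) : ℝ) / p ^ R - (b : ℝ) / q|)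
            ≤ K := by
          have h3 : (p : ℝ) ^ (2 * L) * |((p ^ R * b / q : ℕ) : ℝ) / p ^ R - (b : ℝ) / q|
              ≤ 1 := by
            calc (p : ℝ) ^ (2 * L) * |((p ^ R * b / q : ℕ) : ℝ) / p ^ R - (b : ℝ) / q|
                ≤ p ^ (2 * L) * (1 / p ^ R) := by gcongr
              _ ≤ 1 := by
                  rw [mul_one_div, div_le_one (by positivity)]
                  exact pow_le_pow_right₀ hp1' (by omega)
          calc (K : ℝ) * (p ^ (2 * L) * |((p ^ R * b / q : ℕ) : ℝ) / p ^ R - (b : ℝ) / q|)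
              ≤ K * 1 := by gcongr
            _ = K := mul_one _
        rw [hR, sum_range_succ, sum_range_succ, ← hR]
        have h4 := nK_le_half K (p ^ (2 * L) * (((p ^ R * b / q : ℕ) : ℝ) / p ^ R))
        have h5 := nK_le_half K (p ^ (2 * L + 1) * (((p ^ R * b / q : ℕ) : ℝ) / p ^ R))
        linarith
    · rintro ⟨b, q⟩ hw ⟨b', q'⟩ hw' heq
      simp only [frac, coe_filter, mem_product, mem_range, mem_Ico, Set.mem_ofPred_eq] at hw hw'
      obtain ⟨⟨_, hq1, hq2⟩, hbq, hcop, hsum⟩ := hw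
      obtain ⟨⟨_, hq1', hq2'⟩, hbq', hcop', hsum'⟩ := hw'
      have hq0 : 0 < q := lt_of_lt_of_le (Nat.pow_pos hp0) hq1
      have hq0' : 0 < q' := lt_of_lt_of_le (Nat.pow_pos hp0) hq1'
      simp only at heq
      by_contra hne
      have hne2 : b * q' ≠ b' * q := by
        intro h
        apply hne
        have h1 : q ∣ q' := by
          have : q ∣ b * q' := ⟨b', by rw [h]; ring⟩
          exact (Nat.Coprime.dvd_of_dvd_mul_left hcop.symm this)
        have h2 : q' ∣ q := by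
          have : q' ∣ b' * q := ⟨b, by rw [← h]; ring⟩
          exact (Nat.Coprime.dvd_of_dvd_mul_left hcop'.symm this)
        have h3 : q = q' := Nat.dvd_antisymm h1 h2
        subst h3
        have h4 : b = b' := Nat.eq_of_mul_eq_mul_right hq0 h
        rw [h4]
      -- floors agree, so the difference is small
      set W := p ^ R * b / q with hW
      have e1 : W * q ≤ p ^ R * b := Nat.div_mul_le_self _ _
      have e2 : p ^ R * b < q * (W + 1) := Nat.lt_mul_div_succ _ hq0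
      have e3 : W * q' ≤ p ^ R * b' := by rw [heq]; exact Nat.div_mul_le_self _ _
      have e4 : p ^ R * b' < q' * (W + 1) := by rw [heq]; exact Nat.lt_mul_div_succ _ hq0'
      have e5 : q * q' < p ^ R := by
        calc q * q' < p ^ (L + 1) * p ^ (L + 1) := Nat.mul_lt_mul'' hq2 hq2'
          _ = p ^ R := by rw [hR, ← pow_add]; congr 1; ring
      rcases lt_or_gt_of_ne hne2 with h | h
      · -- b q' < b' q
        have f1 : b * q' + 1 ≤ b' * q := h
        have f2 : p ^ R * (b * q' + 1) ≤ p ^ R * (b' * q) := Nat.mul_le_mul_left _ f1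
        have f3 : W * q * q' ≤ p ^ R * b * q' := Nat.mul_le_mul_right _ e1
        have f4 : p ^ R * b' * q < q' * (W + 1) * q := Nat.mul_lt_mul_of_pos_right e4 hq0
        nlinarith
      · have f1 : b' * q + 1 ≤ b * q' := h
        have f2 : p ^ R * (b' * q + 1) ≤ p ^ R * (b * q') := Nat.mul_le_mul_left _ f1
        have f3 : W * q' * q ≤ p ^ R * b' * q := Nat.mul_le_mul_right _ e3
        have f4 : p ^ R * b * q' < q * (W + 1) * q' := Nat.mul_lt_mul_of_pos_right e2 hq0'
        nlinarith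
  have h1 : ((frac p K δ L).card : ℝ) ≤ s.card := by exact_mod_cast hcard
  refine h1.trans ?_
  refine lc_count p hp K hK R Λ (2 * δ * L + 2 * K + 1) hΛ s (filter_subset _ _) ?_
  intro w hw
  rw [hs, mem_filter] at hw
  exact hw.2

end Pool.Agent.DilatesP
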