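import Mathlib
import Pool.Agent.DilatesP.Core

set_option autoImplicit false

open Finset

namespace Pool.Agent.DilatesP

open Pool.Agent.Dilates

/-- The set of bad multipliers. -/
noncomputable def badSet (p : ℕ) (k : ℤ) (K : ℕ) (δ t : ℝ) (L₁ m : ℕ) : Finset ℕ :=
  open Classical in
  (Icc L₁ m).biUnion fun L => (frac p K δ L).biUnion fun w =>
    (range (p ^ m)).filter (fun c : ℕ => 4 * t * L < ‖S p k L (c * ((w.1 : ℝ) / w.2))‖)

theorem badSet_card (p : ℕ) (hp : 2 ≤ p) (k : ℤ) (hk : ¬ (p : ℤ) ∣ k) (K : ℕ)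
    (hK : Nat.Coprime K p) (δ t Λ : ℝ) (hΛ : 0 ≤ Λ)
    (L₁ m : ℕ) (ht : 0 ≤ t) (hδ : Λ * (2 * δ) ≤ t ^ 2 / 8)
    (hΛt : p * Real.exp (-(Λ / (2 * p))) ≤ t ^ 2 / 16)
    (htL : 2 * Real.pi * |(k : ℝ)| ≤ 2 * t * L₁) :
    ((badSet p k K δ t L₁ m).card : ℝ) ≤
      p ^ m * (8 * (p + 1) * Real.exp (Λ * (2 * K + 1) + t ^ 2 / 8) *
        ∑ L ∈ Ico L₁ (m + 1), Real.exp (-(t ^ 2 / 4)) ^ L) := by
  classical
  have hp0 : 0 < p := by omega
  have hp0' : (0 : ℝ) < p := by exact_mod_cast hp0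
  have hterm : ∀ L ∈ Icc L₁ m, ((((frac p K δ L).biUnion fun w =>
      (range (p ^ m)).filter
        (fun c : ℕ => 4 * t * L < ‖S p k L (c * ((w.1 : ℝ) / w.2))‖)).card : ℕ) : ℝ)
      ≤ p ^ m * (8 * (p + 1) * Real.exp (Λ * (2 * K + 1) + t ^ 2 / 8) *
        Real.exp (-(t ^ 2 / 4)) ^ L) := by
    intro L hL
    rw [mem_Icc] at hL
    have h1 : ∀ w ∈ frac p K δ L, (((range (p ^ m)).filter
        (fun c : ℕ => 4 * t * L < ‖S p k L (c * ((w.1 : ℝ) / w.2))‖)).card : ℝ)
        ≤ 8 * (p + 1) * (p ^ m * Real.exp (-(t ^ 2 / 2) * L)) := by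
      rintro ⟨b, q⟩ hw
      simp only [frac, mem_filter, mem_product, mem_range, mem_Ico] at hw
      obtain ⟨⟨_, hq1, hq2⟩, hbq, hcop, hsum⟩ := hw
      apply bad_count p hp k hk b q L m hcop hq1 hq2 hL.2 t ht
      refine htL.trans ?_
      have : (L₁ : ℝ) ≤ L := by exact_mod_cast hL.1
      gcongr
    have h2 : ((((frac p K δ L).biUnion fun w =>
      (range (p ^ m)).filter
        (fun c : ℕ => 4 * t * L < ‖S p k L (c * ((w.1 : ℝ) / w.2))‖)).card : ℕ) : ℝ)
        ≤ (frac p K δ L).card * (8 * (p + 1) * (p ^ m * Real.exp (-(t ^ 2 / 2) * L))) := by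
      have h3 := card_biUnion_le (s := frac p K δ L) (t := fun w =>
        (range (p ^ m)).filter
          (fun c : ℕ => 4 * t * L < ‖S p k L (c * ((w.1 : ℝ) / w.2))‖))
      have h4 : ((((frac p K δ L).biUnion fun w =>
        (range (p ^ m)).filter
        (fun c : ℕ => 4 * t * L < ‖S p k L (c * ((w.1 : ℝ) / w.2))‖)).card : ℕ) : ℝ)
        ≤ ∑ w ∈ frac p K δ L, ((((range (p ^ m)).filter
          (fun c : ℕ => 4 * t * L < ‖S p k L (c * ((w.1 : ℝ) / w.2))‖)).card : ℕ) : ℝ) := by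
        exact_mod_cast h3
      refine h4.trans ((sum_le_sum h1).trans (le_of_eq ?_))
      rw [sum_const, nsmul_eq_mul]
    refine h2.trans ?_
    have h5 := frac_card p hp K hK δ L Λ hΛ
    have h6 : (1 + p * Real.exp (-(Λ / (2 * p)))) ^ (2 * L + 2)
        ≤ Real.exp ((t ^ 2 / 16) * (2 * L + 2)) := by
      calc (1 + p * Real.exp (-(Λ / (2 * p)))) ^ (2 * L + 2)
          ≤ (Real.exp (t ^ 2 / 16)) ^ (2 * L + 2) := by
            gcongr
            have := Real.add_one_le_exp (t ^ 2 / 16)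
            linarith
        _ = Real.exp ((t ^ 2 / 16) * (2 * L + 2)) := by
            rw [← Real.exp_nat_mul]; congr 1; push_cast; ring
    calc ((frac p K δ L).card : ℝ) * (8 * (p + 1) * (p ^ m * Real.exp (-(t ^ 2 / 2) * L)))
        ≤ (Real.exp (Λ * (2 * δ * L + 2 * K + 1)) * Real.exp ((t ^ 2 / 16) * (2 * L + 2))) *
          (8 * (p + 1) * (p ^ m * Real.exp (-(t ^ 2 / 2) * L))) := by
            gcongr
            refine h5.trans ?_
            gcongr
      _ = p ^ m * (8 * (p + 1) * (Real.exp (Λ * (2 * δ * L + 2 * K + 1)) *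
            Real.exp ((t ^ 2 / 16) * (2 * L + 2)) * Real.exp (-(t ^ 2 / 2) * L))) := by ring
      _ = p ^ m * (8 * (p + 1) * Real.exp (Λ * (2 * δ * L + 2 * K + 1)
            + (t ^ 2 / 16) * (2 * L + 2)
            + (-(t ^ 2 / 2) * L))) := by rw [Real.exp_add, Real.exp_add]
      _ ≤ p ^ m * (8 * (p + 1) * Real.exp (Λ * (2 * K + 1) + t ^ 2 / 8
            + L * (-(t ^ 2 / 4)))) := by
            refine mul_le_mul_of_nonneg_left (mul_le_mul_of_nonneg_left
              (Real.exp_le_exp.mpr ?_) (by positivity)) (by positivity)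
            have hL0 : (0 : ℝ) ≤ L := by positivity
            have hδL := mul_le_mul_of_nonneg_right hδ hL0
            linarith
      _ = p ^ m * (8 * (p + 1) * Real.exp (Λ * (2 * K + 1) + t ^ 2 / 8) *
            Real.exp (-(t ^ 2 / 4)) ^ L) := by
            rw [Real.exp_add, Real.exp_nat_mul]; ring
  have h7 : (badSet p k K δ t L₁ m).card ≤ ∑ L ∈ Icc L₁ m, ((frac p K δ L).biUnion fun w =>
      (range (p ^ m)).filter
        (fun c : ℕ => 4 * t * L < ‖S p k L (c * ((w.1 : ℝ) / w.2))‖)).card := by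
    unfold badSet
    convert card_biUnion_le
  have h8 : ((badSet p k K δ t L₁ m).card : ℝ) ≤ ∑ L ∈ Icc L₁ m,
      ((((frac p K δ L).biUnion fun w =>
      (range (p ^ m)).filter
        (fun c : ℕ => 4 * t * L < ‖S p k L (c * ((w.1 : ℝ) / w.2))‖)).card : ℕ) : ℝ) := by
    exact_mod_cast h7
  refine h8.trans ((sum_le_sum hterm).trans (le_of_eq ?_))
  have h9 : Icc L₁ m = Ico L₁ (m + 1) := by
    ext x; simp only [mem_Icc, mem_Ico]; omega
  rw [← mul_sum, ← mul_sum, h9]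

/-- The key pointwise statement: outside the bad set every point has a good tile. -/
theorem tile_of_not_bad (p : ℕ) (hp : 2 ≤ p) (k : ℤ) (K : ℕ) (δ t : ℝ) (hδ : 0 < δ)
    (ht : 0 < t) (L₁ m c : ℕ)
    (hL₁ : 1 ≤ L₁) (htL : 2 * Real.pi * |(k : ℝ)| ≤ 2 * t * L₁) (hc : c < p ^ m)
    (hcb : c ∉ badSet p k K δ t L₁ m) (x : ℝ) :
    (∃ q : ℕ, 0 < q ∧ q ≤ p ^ L₁ ∧ ∃ b : ℤ, |x - b / q| ≤ 1 / p ^ m) ∨
    ∃ M : ℕ, 1 ≤ M ∧ M ≤ 2 * m ∧
      ‖S p k M (c * x)‖ ≤ 8 * t * M + δ⁻¹ * ∑ i ∈ range M, nK K (p ^ i * x) := by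
  classical
  have hp0 : 0 < p := by omega
  have hp1 : 1 < p := by omega
  have hp0' : (0 : ℝ) < p := by exact_mod_cast hp0
  have hp1' : (1 : ℝ) ≤ p := by exact_mod_cast (by omega : 1 ≤ p)
  obtain ⟨r, hr1, hr2⟩ := Real.exists_rat_abs_sub_le_and_den_le x (n := p ^ m)
    (Nat.pow_pos hp0)
  have hden : (0 : ℝ) < r.den := by exact_mod_cast r.den_pos
  have hpm : (0 : ℝ) < p ^ m := by positivity
  have hr3 : |x - r| ≤ 1 / (p ^ m * r.den) := by
    refine hr1.trans ?_
    push_cast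
    gcongr
    linarith
  have hrr : (r : ℝ) = (r.num : ℝ) / (r.den : ℝ) := by exact_mod_cast (Rat.num_div_den r).symm
  by_cases hq : r.den ≤ p ^ L₁
  · left
    refine ⟨r.den, r.den_pos, hq, r.num, ?_⟩
    rw [← hrr]
    refine hr3.trans ?_
    have h1 : (1 : ℝ) ≤ r.den := by exact_mod_cast r.den_pos
    gcongr
    nlinarith
  right
  push Not at hq
  set q := r.den with hqdef
  set L := Nat.log p q with hL
  have hq0 : 0 < q := r.den_pos
  have hL1 : p ^ L ≤ q := Nat.pow_log_le_self p hq0.ne'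
  have hL2 : q < p ^ (L + 1) := Nat.lt_pow_succ_log_self hp1 q
  have hL3 : L₁ ≤ L := by
    rw [hL]; exact Nat.le_log_of_pow_le hp1 hq.le
  have hL4 : L ≤ m := by
    have h1 : p ^ L ≤ p ^ m := hL1.trans hr2
    exact (Nat.pow_le_pow_iff_right hp1).mp h1
  have hLpos : (0 : ℝ) < L := by
    have : 0 < L := lt_of_lt_of_le hL₁ hL3
    exact_mod_cast this
  by_cases hsum : 2 * δ * L < ∑ i ∈ range (2 * L), nK K (p ^ i * x)
  · refine ⟨2 * L, by omega, by omega, ?_⟩
    have h1 : (2 * L : ℝ) ≤ δ⁻¹ * ∑ i ∈ range (2 * L), nK K (p ^ i * x) := by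
      rw [← div_eq_inv_mul, le_div_iff₀ hδ]
      linarith
    have h2 := norm_S_le p k (2 * L) (c * x)
    push_cast at h2 ⊢
    have h3 : 0 ≤ 8 * t * (2 * L : ℝ) := by positivity
    linarith
  · push Not at hsum
    refine ⟨L, by omega, by omega, ?_⟩
    have hqR : (p : ℝ) ^ L ≤ q := by exact_mod_cast hL1
    have hpL : (0 : ℝ) < p ^ L := by positivity
    have hxr : |x - r| ≤ 1 / (p ^ m * p ^ L) := by
      refine hr3.trans ?_
      gcongr
    -- the residue of the numerator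
    set b := (r.num % (q : ℤ)).toNat with hb
    have hqz : (0 : ℤ) < q := by exact_mod_cast hq0
    have hbz : (b : ℤ) = r.num % (q : ℤ) := by
      rw [hb]; exact Int.toNat_of_nonneg (Int.emod_nonneg _ hqz.ne')
    have hbq : b < q := by
      have := Int.emod_lt_of_pos r.num hqz
      rw [← hbz] at this
      exact_mod_cast this
    obtain ⟨j, hj⟩ : ∃ j : ℤ, r.num = b + q * j := by
      refine ⟨r.num / q, ?_⟩
      rw [hbz]; exact (Int.emod_add_mul_ediv r.num q).symm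
    have hrb : (r : ℝ) = (b : ℝ) / q + j := by
      rw [hrr, hj]; push_cast
      field_simp
    have hcop : Nat.Coprime b q := by
      have h1 : Nat.Coprime r.num.natAbs q := r.reduced
      have h2 : IsCoprime r.num (q : ℤ) := by
        rw [Int.isCoprime_iff_gcd_eq_one]
        simpa [Int.gcd] using h1
      rw [hj] at h2
      have h3 : IsCoprime (b : ℤ) (q : ℤ) := by
        have := h2.add_mul_left_left (-j)
        simpa using this
      exact_mod_cast (Nat.isCoprime_iff_coprime.mp h3)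
    have hper : ∀ i : ℕ, nK K (p ^ i * (r : ℝ)) = nK K (p ^ i * ((b : ℝ) / q)) := by
      intro i
      rw [hrb]
      have : (p : ℝ) ^ i * ((b : ℝ) / q + j) = p ^ i * ((b : ℝ) / q) + ((p ^ i * j : ℤ) : ℝ) := by
        push_cast; ring
      rw [this, nK_add_int]
    have hmem : (b, q) ∈ frac p K δ L := by
      simp only [frac, mem_filter, mem_product, mem_range, mem_Ico]
      refine ⟨⟨by omega, hL1, hL2⟩, hbq, hcop, ?_⟩
      have h1 : ∑ i ∈ range (2 * L), nK K (p ^ i * ((b : ℝ) / q))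
          = ∑ i ∈ range (2 * L), nK K (p ^ i * (r : ℝ)) :=
        sum_congr rfl fun i _ => (hper i).symm
      rw [h1]
      refine (sum_nK_le p hp K (2 * L) r x).trans ?_
      have h2 : (p : ℝ) ^ (2 * L) * |r - x| ≤ 1 := by
        rw [abs_sub_comm]
        calc (p : ℝ) ^ (2 * L) * |x - r| ≤ p ^ (2 * L) * (1 / (p ^ m * p ^ L)) := by gcongr
          _ = p ^ L / p ^ m := by
              rw [two_mul, pow_add]; field_simp
          _ ≤ 1 := by
              rw [div_le_one hpm]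
              exact pow_le_pow_right₀ hp1' hL4
      have h3 : (K : ℝ) * (p ^ (2 * L) * |r - x|) ≤ K * 1 := by gcongr
      linarith
    have hgood : ‖S p k L (c * ((b : ℝ) / q))‖ ≤ 4 * t * L := by
      by_contra hcon
      push Not at hcon
      apply hcb
      unfold badSet
      rw [mem_biUnion]
      refine ⟨L, mem_Icc.mpr ⟨hL3, hL4⟩, ?_⟩
      rw [mem_biUnion]
      refine ⟨(b, q), hmem, ?_⟩
      rw [mem_filter]
      exact ⟨mem_range.mpr hc, hcon⟩
    have hS : S p k L (c * (r : ℝ)) = S p k L (c * ((b : ℝ) / q)) := by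
      have : (c : ℝ) * r = c * ((b : ℝ) / q) + ((c * j : ℤ) : ℝ) := by
        rw [hrb]; push_cast; ring
      rw [this, S_add_int]
    have hdiff : ‖S p k L (c * x) - S p k L (c * (r : ℝ))‖ ≤ 2 * t * L := by
      refine (norm_S_sub p hp k L _ _).trans ?_
      have h1 : (p : ℝ) ^ L * |c * x - c * (r : ℝ)| ≤ 1 := by
        rw [← mul_sub, abs_mul, abs_of_nonneg (by positivity : (0 : ℝ) ≤ c)]
        have hc' : (c : ℝ) ≤ p ^ m := by exact_mod_cast hc.le
        calc (p : ℝ) ^ L * (c * |x - r|) ≤ p ^ L * (p ^ m * (1 / (p ^ m * p ^ L))) := by gcongr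
          _ = 1 := by field_simp
      calc 2 * Real.pi * |(k : ℝ)| * (p ^ L * |c * x - c * (r : ℝ)|)
          ≤ 2 * Real.pi * |(k : ℝ)| * 1 := by gcongr
        _ ≤ 2 * t * L₁ := by linarith
        _ ≤ 2 * t * L := by
            have : (L₁ : ℝ) ≤ L := by exact_mod_cast hL3
            gcongr
    have h9 : ‖S p k L (c * x)‖
        ≤ ‖S p k L (c * x) - S p k L (c * (r : ℝ))‖ + ‖S p k L (c * (r : ℝ))‖ := by
      have := norm_add_le (S p k L (c * x) - S p k L (c * (r : ℝ))) (S p k L (c * (r : ℝ)))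
      simpa using this
    rw [hS] at h9
    rw [hS] at hdiff
    have h10 : 0 ≤ δ⁻¹ * ∑ i ∈ range L, nK K (p ^ i * x) :=
      mul_nonneg (inv_nonneg.mpr hδ.le) (sum_nonneg fun i _ => nK_nonneg _ _)
    have h11 : 0 ≤ t * L := by positivity
    linarith

end Pool.Agent.DilatesP
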