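import Mathlib
import Pool.Agent.DilatesP.Tile

set_option autoImplicit false

open Finset Filter Topology

namespace Pool.Agent.DilatesP

open Pool.Agent.Dilates

theorem core (p : ℕ) (hp : 2 ≤ p) (k : ℤ) (hk : ¬ (p : ℤ) ∣ k) (ε : ℝ) (hε : 0 < ε) :
    ∃ δ : ℝ, 0 < δ ∧ ∀ K : ℕ, Nat.Coprime K p → ∀ η : ℝ, 0 < η → ∃ L₁ : ℕ, ∀ m : ℕ,
      ∃ B : Finset ℕ, (B.card : ℝ) ≤ p ^ m * η ∧ ∀ c : ℕ, c < p ^ m → c ∉ B → ∀ x : ℝ,
        (∃ q : ℕ, 0 < q ∧ q ≤ p ^ L₁ ∧ ∃ b : ℤ, |x - b / q| ≤ 1 / p ^ m) ∨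
        ∃ M : ℕ, 1 ≤ M ∧ M ≤ 2 * m ∧
          ‖S p k M (c * x)‖ ≤ ε * M + δ⁻¹ * ∑ i ∈ range M, nK K (p ^ i * x) := by
  have hp0 : 0 < p := by omega
  have hp0' : (0 : ℝ) < p := by exact_mod_cast hp0
  set t : ℝ := ε / 8 with htdef
  have ht : 0 < t := by positivity
  set Λ : ℝ := 32 * p ^ 2 / t ^ 2 with hΛdef
  have hΛ : 0 < Λ := by positivity
  set δ : ℝ := t ^ 2 / (16 * Λ) with hδdef
  have hδ : 0 < δ := by positivity
  refine ⟨δ, hδ, ?_⟩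
  intro K hK η hη
  have hΛδ : Λ * (2 * δ) ≤ t ^ 2 / 8 := by
    rw [hδdef]; apply le_of_eq; field_simp; norm_num
  have hΛt : p * Real.exp (-(Λ / (2 * p))) ≤ t ^ 2 / 16 := by
    have h1 : Λ / (2 * p) = 16 * p / t ^ 2 := by
      rw [hΛdef]; field_simp; norm_num
    rw [h1, Real.exp_neg]
    have h2 : 16 * p / t ^ 2 ≤ Real.exp (16 * p / t ^ 2) := by
      have := Real.add_one_le_exp (16 * p / t ^ 2)
      linarith
    have h3 : (0 : ℝ) < 16 * p / t ^ 2 := by positivity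
    calc p * (Real.exp (16 * p / t ^ 2))⁻¹ ≤ p * (16 * p / t ^ 2)⁻¹ := by
          refine mul_le_mul_of_nonneg_left (inv_anti₀ h3 h2) hp0'.le
      _ = t ^ 2 / 16 := by rw [inv_div]; field_simp
  set ρ : ℝ := Real.exp (-(t ^ 2 / 4)) with hρ
  have hρ0 : 0 ≤ ρ := (Real.exp_pos _).le
  have hρ1 : ρ < 1 := by
    have h0 : 0 < t ^ 2 / 4 := by positivity
    rw [hρ]; apply Real.exp_lt_one_iff.mpr
    linarith
  set A : ℝ := 8 * (p + 1) * Real.exp (Λ * (2 * K + 1) + t ^ 2 / 8) with hA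
  have hA0 : 0 ≤ A := by positivity
  have htend : Tendsto (fun n : ℕ => A * (ρ ^ n / (1 - ρ))) atTop (𝓝 0) := by
    have h1 := (tendsto_pow_atTop_nhds_zero_of_lt_one hρ0 hρ1).div_const (1 - ρ)
    have h2 := h1.const_mul A
    simpa using h2
  have hev1 := (htend.eventually (gt_mem_nhds hη))
  have hev2 := eventually_ge_atTop (Nat.ceil (Real.pi * |(k : ℝ)| / t))
  obtain ⟨L₁, hL1, hL2, hL3⟩ := (hev1.and (hev2.and (eventually_ge_atTop 1))).exists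
  refine ⟨L₁, fun m => ⟨badSet p k K δ t L₁ m, ?_, ?_⟩⟩
  · have htL : 2 * Real.pi * |(k : ℝ)| ≤ 2 * t * L₁ := by
      have h1 : Real.pi * |(k : ℝ)| / t ≤ L₁ := (Nat.le_ceil _).trans (by exact_mod_cast hL2)
      rw [div_le_iff₀ ht] at h1
      linarith
    refine (badSet_card p hp k hk K hK δ t Λ hΛ.le L₁ m ht.le hΛδ hΛt htL).trans ?_
    refine mul_le_mul_of_nonneg_left ?_ (by positivity)
    refine le_trans ?_ hL1.le
    rw [← hA]
    refine mul_le_mul_of_nonneg_left ?_ hA0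
    exact geom_sum_Ico_le_of_lt_one hρ0 hρ1
  · intro c hc hcb x
    have htL : 2 * Real.pi * |(k : ℝ)| ≤ 2 * t * L₁ := by
      have h1 : Real.pi * |(k : ℝ)| / t ≤ L₁ := (Nat.le_ceil _).trans (by exact_mod_cast hL2)
      rw [div_le_iff₀ ht] at h1
      linarith
    have := tile_of_not_bad p hp k K δ t hδ ht L₁ m c hL3 htL hc hcb x
    have h8 : 8 * t = ε := by rw [htdef]; ring
    rw [h8] at this
    exact this

end Pool.Agent.DilatesP
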