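import Mathlib
import Pool.Agent.Dilates.Dens2
import Pool.Agent.DilatesP.Main1

set_option autoImplicit false

open Finset MeasureTheory Filter Topology
open scoped ENNReal

namespace Pool.Agent.DilatesP

open Pool.Agent.Dilates

/-- The set of probability measures on the circle that are invariant under `x ↦ p x`. -/
def PP (p : ℕ) : Set (ProbabilityMeasure UnitAddCircle) :=
  {ν | (ν : Measure UnitAddCircle).map (fun x : UnitAddCircle => p • x)
    = (ν : Measure UnitAddCircle)}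

theorem continuous_p_smul (p : ℕ) : Continuous (fun x : UnitAddCircle => p • x) :=
  continuous_const_smul p

theorem iterate_p_smul (p i : ℕ) (t : ℝ) :
    (fun x : UnitAddCircle => p • x)^[i] ((t : ℝ) : UnitAddCircle)
      = ((p ^ i * t : ℝ) : UnitAddCircle) := by
  induction i with
  | zero => simp
  | succ i ih =>
    rw [Function.iterate_succ_apply', ih, nsmul_coe]
    congr 1
    ring

theorem PP_preserving {p : ℕ} {μ : ProbabilityMeasure UnitAddCircle} (hμ : μ ∈ PP p) :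
    MeasurePreserving (fun x : UnitAddCircle => p • x) (μ : Measure UnitAddCircle)
      (μ : Measure UnitAddCircle) :=
  ⟨(continuous_p_smul p).measurable, hμ⟩

theorem key_bound (p : ℕ) (k : ℤ) (c m L₁ K : ℕ) (ε δ : ℝ) (hε : 0 ≤ ε) (hδ : 0 < δ)
    (htile : ∀ x : ℝ, (∃ q : ℕ, 0 < q ∧ q ≤ p ^ L₁ ∧ ∃ b : ℤ, |x - b / q| ≤ 1 / p ^ m) ∨
        ∃ M : ℕ, 1 ≤ M ∧ M ≤ 2 * m ∧
          ‖S p k M (c * x)‖ ≤ ε * M + δ⁻¹ * ∑ i ∈ range M, nK K (p ^ i * x))
    (μ : ProbabilityMeasure UnitAddCircle) (hμ : μ ∈ PP p) (N : Set UnitAddCircle)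
    (hN : MeasurableSet N)
    (hNsub : ∀ x : ℝ, (∃ q : ℕ, 0 < q ∧ q ≤ p ^ L₁ ∧ ∃ b : ℤ, |x - b / q| ≤ 1 / p ^ m) →
      ((x : ℝ) : UnitAddCircle) ∈ N) :
    ‖∫ x, (fourier (k * c) x : ℂ) ∂(μ : Measure UnitAddCircle)‖ ≤
      ε + δ⁻¹ * ∫ x, ‖K • x‖ ∂(μ : Measure UnitAddCircle)
        + (μ : Measure UnitAddCircle).real N := by
  set h : UnitAddCircle → ℝ := fun x => ε + δ⁻¹ * ‖K • x‖ + N.indicator (fun _ => (1 : ℝ)) x
    with hh
  have hcont : Continuous fun x : UnitAddCircle => ‖K • x‖ := (continuous_const_smul K).norm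
  have hbd : ∀ x : UnitAddCircle, ‖K • x‖ ≤ 1 / 2 := by
    intro x
    have := AddCircle.norm_le_half_period (p := (1 : ℝ)) (x := K • x) one_ne_zero
    simpa using this
  have hint1 : Integrable (fun x : UnitAddCircle => ‖K • x‖) (μ : Measure UnitAddCircle) := by
    refine Integrable.of_bound hcont.aestronglyMeasurable (1 / 2) (ae_of_all _ fun x => ?_)
    rw [norm_norm]; exact hbd x
  have hint2 : Integrable (N.indicator (fun _ => (1 : ℝ))) (μ : Measure UnitAddCircle) :=
    (integrable_const _).indicator hN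
  have h0 : ∀ x, 0 ≤ h x := by
    intro x
    have h1 : 0 ≤ N.indicator (fun _ => (1 : ℝ)) x := Set.indicator_nonneg (by simp) x
    have h2 : 0 ≤ δ⁻¹ * ‖K • x‖ := mul_nonneg (inv_nonneg.mpr hδ.le) (norm_nonneg _)
    simp only [hh]; linarith
  have hmeas : Measurable h := by
    simp only [hh]
    exact ((measurable_const.add (hcont.measurable.const_mul _)).add
      (measurable_const.indicator hN))
  have hinth : Integrable h (μ : Measure UnitAddCircle) :=
    ((integrable_const ε).add (hint1.const_mul _)).add hint2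
  have hle := tile_integral (μ : Measure UnitAddCircle) (fun x : UnitAddCircle => p • x)
    (PP_preserving hμ) (fun x => (fourier (k * c) x : ℂ)) (by fun_prop)
    (fun x => by rw [fourier_apply]; exact (Circle.norm_coe _).le) h h0 hmeas hinth
    (2 * m + 1) ?_
  · refine hle.trans (le_of_eq ?_)
    simp only [hh]
    have e1 : ∫ x, (ε + δ⁻¹ * ‖K • x‖ + N.indicator (fun _ => (1 : ℝ)) x)
        ∂(μ : Measure UnitAddCircle)
        = ∫ x, (ε + δ⁻¹ * ‖K • x‖) ∂(μ : Measure UnitAddCircle)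
          + ∫ x, N.indicator (fun _ => (1 : ℝ)) x ∂(μ : Measure UnitAddCircle) :=
      integral_add ((integrable_const ε).add (hint1.const_mul _)) hint2
    have e2 : ∫ x, (ε + δ⁻¹ * ‖K • x‖) ∂(μ : Measure UnitAddCircle)
        = ∫ _x, ε ∂(μ : Measure UnitAddCircle)
          + ∫ x, δ⁻¹ * ‖K • x‖ ∂(μ : Measure UnitAddCircle) :=
      integral_add (integrable_const ε) (hint1.const_mul _)
    rw [e1, e2, integral_const_mul, integral_indicator hN]
    simp
  · intro x
    obtain ⟨t, rfl⟩ := QuotientAddGroup.mk_surjective x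
    simp only [iterate_p_smul, fourier_eq_e]
    rcases htile t with hq | ⟨M, hM1, hM2, hM3⟩
    · refine ⟨1, le_rfl, by omega, ?_⟩
      have hmem := hNsub t hq
      simp only [sum_range_one, pow_zero, one_mul, norm_e, hh]
      rw [Set.indicator_of_mem hmem]
      have h2 : 0 ≤ δ⁻¹ * ‖K • ((t : ℝ) : UnitAddCircle)‖ :=
        mul_nonneg (inv_nonneg.mpr hδ.le) (norm_nonneg _)
      linarith
    · refine ⟨M, hM1, by omega, ?_⟩
      have e1 : ∑ i ∈ range M, e (((k * c : ℤ) : ℝ) * (p ^ i * t)) = S p k M (c * t) := by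
        unfold S
        refine sum_congr rfl fun i _ => ?_
        congr 1; push_cast; ring
      rw [e1]
      refine hM3.trans ?_
      have e2 : ε * M + δ⁻¹ * ∑ i ∈ range M, nK K (p ^ i * t)
          = ∑ i ∈ range M, (ε + δ⁻¹ * nK K (p ^ i * t)) := by
        rw [sum_add_distrib, mul_sum]; simp [mul_comm]
      rw [e2]
      refine sum_le_sum fun i _ => ?_
      simp only [hh]
      have h1 : 0 ≤ N.indicator (fun _ => (1 : ℝ)) ((p ^ i * t : ℝ) : UnitAddCircle) :=
        Set.indicator_nonneg (by simp) _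
      have h2 : ‖K • ((p ^ i * t : ℝ) : UnitAddCircle)‖ = nK K (p ^ i * t) := by
        rw [nsmul_coe]; rfl
      rw [h2]
      linarith

theorem avg_map_p (p : ℕ) (μ : Measure UnitAddCircle) (s : ℕ) (hs : 0 < s)
    (φ : ℕ → UnitAddCircle → UnitAddCircle)
    (hstep : ∀ i, (μ.map (φ i)).map (fun x => p • x) = μ.map (φ (i + 1)))
    (hcyc : μ.map (φ s) = μ.map (φ 0)) :
    (avg μ s φ).map (fun x => p • x) = avg μ s φ := by
  unfold avg
  have h2 : AEMeasurable (fun x : UnitAddCircle => p • x) (∑ i ∈ range s, μ.map (φ i)) :=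
    (continuous_p_smul p).measurable.aemeasurable
  rw [Measure.map_smul]
  congr 1
  rw [Measure.map_finset_sum h2]
  rw [sum_congr rfl (fun i _ => hstep i)]
  obtain ⟨s', rfl⟩ := Nat.exists_eq_succ_of_ne_zero hs.ne'
  rw [Nat.succ_eq_add_one, sum_range_succ, hcyc, sum_range_succ' (fun i => μ.map (φ i))]

/-- Closeness of the average in terms of Fourier coefficients. -/
theorem avg_fourier (p : ℕ) (hp : 2 ≤ p) (μ : Measure UnitAddCircle) [IsProbabilityMeasure μ]
    (s : ℕ) (hs : 0 < s) (φ ψ : ℕ → UnitAddCircle → UnitAddCircle)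
    (hφ : ∀ i, Measurable (φ i)) (hψ : ∀ i, Measurable (ψ i)) (hψμ : ∀ i, μ.map (ψ i) = μ)
    (hclose : ∀ i < s, ∀ x, ‖φ i x - ψ i x‖ ≤ 2 * p ^ i / p ^ s) (j : ℤ) :
    ‖∫ x, (fourier j x : ℂ) ∂(avg μ s φ) - ∫ x, (fourier j x : ℂ) ∂μ‖
      ≤ 4 * Real.pi * |(j : ℝ)| / s := by
  have hp0' : (0 : ℝ) < p := by exact_mod_cast (by omega : 0 < p)
  have hs' : (0 : ℝ) < s := by exact_mod_cast hs
  have hsm : StronglyMeasurable (fun x : UnitAddCircle => (fourier j x : ℂ)) :=
    (map_continuous (fourier j)).stronglyMeasurable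
  have hb : ∀ x : UnitAddCircle, ‖(fourier j x : ℂ)‖ ≤ 1 := fun x => by
    rw [fourier_apply]; exact (Circle.norm_coe _).le
  rw [avg_integral μ s φ hφ (fun x => (fourier j x : ℂ)) hsm 1 hb]
  have e1 : ∫ x, (fourier j x : ℂ) ∂μ
      = ((s : ℝ)⁻¹) • ∑ i ∈ range s, ∫ x, (fourier j (ψ i x) : ℂ) ∂μ := by
    have h1 : ∀ i ∈ range s, ∫ x, (fourier j (ψ i x) : ℂ) ∂μ = ∫ x, (fourier j x : ℂ) ∂μ := by
      intro i _
      have := integral_map (μ := μ) (hψ i).aemeasurable
        (f := fun x : UnitAddCircle => (fourier j x : ℂ)) hsm.aestronglyMeasurable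
      rw [hψμ i] at this
      exact this.symm
    rw [sum_congr rfl h1]
    simp only [sum_const, card_range]
    rw [← Nat.cast_smul_eq_nsmul ℝ, smul_smul, inv_mul_cancel₀ hs'.ne', one_smul]
  rw [e1, ← smul_sub, ← sum_sub_distrib, norm_smul, norm_inv, Real.norm_eq_abs,
    abs_of_pos hs', div_eq_inv_mul]
  refine mul_le_mul_of_nonneg_left ?_ (inv_nonneg.mpr hs'.le)
  have hint : ∀ (χ : UnitAddCircle → UnitAddCircle), Measurable χ →
      Integrable (fun x => (fourier j (χ x) : ℂ)) μ := by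
    intro χ hχ
    exact Integrable.of_bound (hsm.comp_measurable hχ).aestronglyMeasurable 1
      (ae_of_all _ fun x => hb _)
  calc ‖∑ i ∈ range s, (∫ x, (fourier j (φ i x) : ℂ) ∂μ - ∫ x, (fourier j (ψ i x) : ℂ) ∂μ)‖
      ≤ ∑ i ∈ range s, (4 * Real.pi * |(j : ℝ)| / p ^ s) * p ^ i := by
        refine (norm_sum_le _ _).trans (sum_le_sum fun i hi => ?_)
        rw [← integral_sub (hint _ (hφ i)) (hint _ (hψ i))]
        have h1 : ∀ x, ‖(fourier j (φ i x) : ℂ) - (fourier j (ψ i x) : ℂ)‖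
            ≤ (4 * Real.pi * |(j : ℝ)| / p ^ s) * p ^ i := by
          intro x
          refine (norm_fourier_sub j _ _).trans ?_
          calc 2 * Real.pi * |(j : ℝ)| * ‖φ i x - ψ i x‖
              ≤ 2 * Real.pi * |(j : ℝ)| * (2 * p ^ i / p ^ s) := by
                gcongr
                exact hclose i (mem_range.mp hi) x
            _ = _ := by ring
        have := norm_integral_le_of_norm_le_const (μ := μ) (ae_of_all _ h1)
        simpa using this
    _ = (4 * Real.pi * |(j : ℝ)| / p ^ s) * ∑ i ∈ range s, (p : ℝ) ^ i := by rw [mul_sum]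
    _ ≤ (4 * Real.pi * |(j : ℝ)| / p ^ s) * p ^ s := by
        gcongr
        exact sum_pow_le p hp s
    _ = 4 * Real.pi * |(j : ℝ)| := by field_simp

end Pool.Agent.DilatesP
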