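import Mathlib
import Pool.Agent.DilatesP.Circle

set_option autoImplicit false

open Finset MeasureTheory Filter Topology
open scoped ENNReal

namespace Pool.Agent.DilatesP

open Pool.Agent.Dilates

/-- Replace a point by the periodic point with the same first `s` digits to the base `p`. -/
noncomputable def proj (p s : ℕ) (x : UnitAddCircle) : UnitAddCircle :=
  (((⌊(p : ℝ) ^ s * rp x⌋ : ℤ) / ((p : ℝ) ^ s - 1) : ℝ) : UnitAddCircle)

theorem measurable_proj (p s : ℕ) : Measurable (proj p s) := by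
  unfold proj
  have h1 : Measurable fun x : UnitAddCircle => (⌊(p : ℝ) ^ s * rp x⌋ : ℤ) :=
    Int.measurable_floor.comp (measurable_rp.const_mul _)
  have h2 : Measurable fun x : UnitAddCircle => ((⌊(p : ℝ) ^ s * rp x⌋ : ℤ) : ℝ) :=
    (Measurable.of_discrete (f := fun n : ℤ => (n : ℝ))).comp h1
  have h3 := h2.div_const ((p : ℝ) ^ s - 1)
  exact (AddCircle.measurable_mk' (a := (1 : ℝ))).comp h3

theorem one_lt_ppow (p : ℕ) (hp : 2 ≤ p) (s : ℕ) (hs : 1 ≤ s) : (1 : ℝ) < (p : ℝ) ^ s := by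
  have hp' : (2 : ℝ) ≤ p := by exact_mod_cast hp
  exact one_lt_pow₀ (by linarith) (by omega)

theorem cast_ppow_sub (p : ℕ) (hp : 2 ≤ p) (s : ℕ) :
    ((p ^ s - 1 : ℕ) : ℝ) = (p : ℝ) ^ s - 1 := by
  rw [Nat.cast_sub (Nat.one_le_pow _ _ (by omega))]; push_cast; ring

theorem proj_torsion (p : ℕ) (hp : 2 ≤ p) (s : ℕ) (hs : 1 ≤ s) (x : UnitAddCircle) :
    (p ^ s - 1) • proj p s x = 0 := by
  unfold proj
  rw [nsmul_coe]
  have h1 := one_lt_ppow p hp s hs
  rw [cast_ppow_sub p hp s]
  have h3 : ((p : ℝ) ^ s - 1) * ((⌊(p : ℝ) ^ s * rp x⌋ : ℤ) / ((p : ℝ) ^ s - 1))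
      = ((⌊(p : ℝ) ^ s * rp x⌋ : ℤ) : ℝ) := by
    field_simp [sub_ne_zero.mpr h1.ne']
  rw [h3, coe_int_eq_zero]

theorem ppow_smul_of_torsion (p : ℕ) (hp : 2 ≤ p) (s : ℕ) (z : UnitAddCircle)
    (h : (p ^ s - 1) • z = 0) : p ^ s • z = z := by
  have h1 : p ^ s • z = (p ^ s - 1) • z + z := by
    rw [← succ_nsmul]
    congr 1
    have : 1 ≤ p ^ s := Nat.one_le_pow _ _ (by omega)
    omega
  rw [h1, h, zero_add]

theorem inv_bound (p : ℕ) (hp : 2 ≤ p) (s : ℕ) (hs : 1 ≤ s) :
    1 / ((p : ℝ) ^ s - 1) ≤ 2 / p ^ s := by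
  have hp' : (2 : ℝ) ≤ p := by exact_mod_cast hp
  have h1 : (2 : ℝ) ≤ p ^ s := by
    calc (2 : ℝ) ≤ (p : ℝ) ^ 1 := by simpa using hp'
      _ ≤ p ^ s := pow_le_pow_right₀ (by linarith) hs
  rw [div_le_div_iff₀ (by linarith) (by positivity)]
  linarith

theorem proj_close (p : ℕ) (hp : 2 ≤ p) (s : ℕ) (hs : 1 ≤ s) (x : UnitAddCircle) :
    ‖proj p s x - x‖ ≤ 2 / p ^ s := by
  have h1 := one_lt_ppow p hp s hs
  have hpos : (0 : ℝ) < (p : ℝ) ^ s - 1 := by linarith
  have h2 : proj p s x - x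
      = (((⌊(p : ℝ) ^ s * rp x⌋ : ℤ) / ((p : ℝ) ^ s - 1) - rp x : ℝ) : UnitAddCircle) := by
    rw [AddCircle.coe_sub, coe_rp]; rfl
  rw [h2]
  refine (norm_coe_le_abs _).trans
    ((?_ : _ ≤ 1 / ((p : ℝ) ^ s - 1)).trans (inv_bound p hp s hs))
  have hfl := Int.floor_le ((p : ℝ) ^ s * rp x)
  have hfl2 := Int.lt_floor_add_one ((p : ℝ) ^ s * rp x)
  set n : ℝ := ((⌊(p : ℝ) ^ s * rp x⌋ : ℤ) : ℝ) with hn
  have hr0 := rp_nonneg x
  have hr1 := rp_lt_one x
  have h3 : n / ((p : ℝ) ^ s - 1) - rp x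
      = (n - ((p : ℝ) ^ s - 1) * rp x) / ((p : ℝ) ^ s - 1) := by
    field_simp
  rw [h3, abs_div, abs_of_pos hpos]
  gcongr
  rw [abs_le]
  constructor <;> nlinarith

theorem map_p_pow (p : ℕ) (μ : Measure UnitAddCircle)
    (hμ : μ.map (fun x : UnitAddCircle => p • x) = μ)
    (i : ℕ) : μ.map (fun x : UnitAddCircle => p ^ i • x) = μ := by
  induction i with
  | zero => simp
  | succ i ih =>
    have h1 : (fun x : UnitAddCircle => p ^ (i + 1) • x)
        = (fun x : UnitAddCircle => p • x) ∘ (fun x : UnitAddCircle => p ^ i • x) := by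
      funext x
      simp only [Function.comp]
      rw [smul_smul]; congr 1; ring
    rw [h1, ← Measure.map_map (continuous_p_smul p).measurable
      (continuous_const_smul (p ^ i)).measurable, ih, hμ]

/-- First density statement: invariant measures supported on torsion of order prime to `p`. -/
theorem dens1 (p : ℕ) (hp : 2 ≤ p) (μ : ProbabilityMeasure UnitAddCircle) (hμ : μ ∈ PP p)
    (s : ℕ) (hs : 1 ≤ s) :
    ∃ ν : ProbabilityMeasure UnitAddCircle, ν ∈ PP p ∧
      (∫ x, ‖(p ^ s - 1) • x‖ ∂(ν : Measure UnitAddCircle) = 0) ∧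
      ∀ j : ℤ, ‖∫ x, (fourier j x : ℂ) ∂(ν : Measure UnitAddCircle)
        - ∫ x, (fourier j x : ℂ) ∂(μ : Measure UnitAddCircle)‖ ≤ 4 * Real.pi * |(j : ℝ)| / s := by
  set φ : ℕ → UnitAddCircle → UnitAddCircle := fun i x => p ^ i • proj p s x with hφdef
  have hφ : ∀ i, Measurable (φ i) := fun i =>
    (continuous_const_smul (p ^ i)).measurable.comp (measurable_proj p s)
  have hs0 : 0 < s := hs
  have hp0' : (0 : ℝ) < p := by exact_mod_cast (by omega : 0 < p)
  have := avg_prob (μ : Measure UnitAddCircle) s hs0 φ hφ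
  refine ⟨⟨avg (μ : Measure UnitAddCircle) s φ, inferInstance⟩, ?_, ?_, ?_⟩
  · change (avg (μ : Measure UnitAddCircle) s φ).map (fun x : UnitAddCircle => p • x)
      = avg (μ : Measure UnitAddCircle) s φ
    apply avg_map_p p _ s hs0
    · intro i
      rw [Measure.map_map (continuous_p_smul p).measurable (hφ i)]
      congr 1
      funext x
      simp only [Function.comp, hφdef]
      rw [smul_smul]; congr 1; ring
    · congr 1
      funext x
      simp only [hφdef]
      rw [ppow_smul_of_torsion p hp s _ (proj_torsion p hp s hs x)]; simp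
  · change ∫ x, ‖(p ^ s - 1) • x‖ ∂(avg (μ : Measure UnitAddCircle) s φ) = 0
    rw [avg_integral (μ : Measure UnitAddCircle) s φ hφ (fun x => ‖(p ^ s - 1) • x‖)
      ((continuous_const_smul (p ^ s - 1)).norm).stronglyMeasurable (1 / 2) ?_]
    · have : ∀ i ∈ range s, ∫ x, ‖(p ^ s - 1) • φ i x‖ ∂(μ : Measure UnitAddCircle) = 0 := by
        intro i _
        have h1 : ∀ x, (p ^ s - 1) • φ i x = 0 := by
          intro x
          simp only [hφdef]
          rw [smul_comm, proj_torsion p hp s hs x, smul_zero]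
        simp [h1]
      rw [sum_congr rfl this]; simp
    · intro x
      rw [norm_norm]
      have := AddCircle.norm_le_half_period (p := (1 : ℝ)) (x := (p ^ s - 1) • x) one_ne_zero
      simpa using this
  · intro j
    apply avg_fourier p hp (μ : Measure UnitAddCircle) s hs0 φ
      (fun i x => p ^ i • x) hφ (fun i => (continuous_const_smul (p ^ i)).measurable)
      (fun i => map_p_pow p _ hμ i)
    intro i _ x
    simp only [hφdef]
    rw [← smul_sub]
    refine (norm_nsmul_le).trans ?_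
    have := proj_close p hp s hs x
    push_cast
    calc (p : ℝ) ^ i * ‖proj p s x - x‖ ≤ p ^ i * (2 / p ^ s) := by gcongr
      _ = 2 * p ^ i / p ^ s := by ring

/-- The point `1 / (p ^ s - 1)` of the circle. -/
noncomputable def yp (p s : ℕ) : UnitAddCircle :=
  ((1 / ((p : ℝ) ^ s - 1) : ℝ) : UnitAddCircle)

theorem yp_torsion (p : ℕ) (hp : 2 ≤ p) (s : ℕ) (hs : 1 ≤ s) : (p ^ s - 1) • yp p s = 0 := by
  unfold yp
  rw [nsmul_coe]
  have h1 := one_lt_ppow p hp s hs
  rw [cast_ppow_sub p hp s]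
  have h3 : ((p : ℝ) ^ s - 1) * (1 / ((p : ℝ) ^ s - 1)) = ((1 : ℤ) : ℝ) := by
    field_simp [sub_ne_zero.mpr h1.ne']
    simp
  rw [h3, coe_int_eq_zero]

theorem yp_inj (p : ℕ) (hp : 2 ≤ p) (s : ℕ) (hs : 2 ≤ s) (i j : ℕ) (hi : i < s) (hj : j < s)
    (h : p ^ i • yp p s = p ^ j • yp p s) : i = j := by
  unfold yp at h
  rw [nsmul_coe, nsmul_coe] at h
  have hp' : (2 : ℝ) ≤ p := by exact_mod_cast hp
  have h1 := one_lt_ppow p hp s (by omega)
  have hpos : (0 : ℝ) < (p : ℝ) ^ s - 1 := by linarith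
  have hmem : ∀ i < s, (((p ^ i : ℕ) : ℝ) * (1 / ((p : ℝ) ^ s - 1)))
      ∈ Set.Ico (0 : ℝ) (0 + 1) := by
    intro i hi
    constructor
    · positivity
    · push_cast
      rw [zero_add, mul_one_div, div_lt_one hpos]
      have h2 : (p : ℝ) ^ i ≤ p ^ (s - 1) := pow_le_pow_right₀ (by linarith) (by omega)
      have h3 : (p : ℝ) ^ s = p * p ^ (s - 1) := by
        rw [← pow_succ']; congr 1; omega
      have h4 : (2 : ℝ) ≤ p ^ (s - 1) := by
        calc (2 : ℝ) ≤ (p : ℝ) ^ 1 := by simpa using hp'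
          _ ≤ p ^ (s - 1) := pow_le_pow_right₀ (by linarith) (by omega)
      nlinarith
  have h5 := (AddCircle.coe_eq_coe_iff_of_mem_Ico (hmem i hi) (hmem j hj)).mp h
  have h6 : ((p ^ i : ℕ) : ℝ) = ((p ^ j : ℕ) : ℝ) := by
    have hne : (1 / ((p : ℝ) ^ s - 1)) ≠ 0 := by positivity
    exact mul_right_cancel₀ hne h5
  have h7 : p ^ i = p ^ j := by exact_mod_cast h6
  exact Nat.pow_right_injective hp h7

/-- Second density statement: invariant measures with small atoms. -/
theorem dens2 (p : ℕ) (hp : 2 ≤ p) (μ : ProbabilityMeasure UnitAddCircle) (hμ : μ ∈ PP p)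
    (s : ℕ) (hs : 2 ≤ s) :
    ∃ ν : ProbabilityMeasure UnitAddCircle, ν ∈ PP p ∧
      (∀ z : UnitAddCircle, (ν : Measure UnitAddCircle) {z} ≤ (s : ℝ≥0∞)⁻¹) ∧
      ∀ j : ℤ, ‖∫ x, (fourier j x : ℂ) ∂(ν : Measure UnitAddCircle)
        - ∫ x, (fourier j x : ℂ) ∂(μ : Measure UnitAddCircle)‖ ≤ 4 * Real.pi * |(j : ℝ)| / s := by
  set φ : ℕ → UnitAddCircle → UnitAddCircle := fun i x => x + p ^ i • yp p s with hφdef
  have hφ : ∀ i, Measurable (φ i) := fun i => measurable_id.add_const _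
  have hs0 : 0 < s := by omega
  have hp0' : (0 : ℝ) < p := by exact_mod_cast (by omega : 0 < p)
  have := avg_prob (μ : Measure UnitAddCircle) s hs0 φ hφ
  refine ⟨⟨avg (μ : Measure UnitAddCircle) s φ, inferInstance⟩, ?_, ?_, ?_⟩
  · change (avg (μ : Measure UnitAddCircle) s φ).map (fun x : UnitAddCircle => p • x)
      = avg (μ : Measure UnitAddCircle) s φ
    apply avg_map_p p _ s hs0
    · intro i
      rw [Measure.map_map (continuous_p_smul p).measurable (hφ i)]
      have h1 : (fun x : UnitAddCircle => p • x) ∘ φ i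
          = φ (i + 1) ∘ (fun x : UnitAddCircle => p • x) := by
        funext x
        simp only [Function.comp, hφdef]
        rw [smul_add, smul_smul]; congr 2; ring
      rw [h1, ← Measure.map_map (hφ (i + 1)) (continuous_p_smul p).measurable]
      congr 1
    · congr 1
      funext x
      simp only [hφdef]
      rw [ppow_smul_of_torsion p hp s _ (yp_torsion p hp s (by omega))]; simp
  · intro z
    change (avg (μ : Measure UnitAddCircle) s φ) {z} ≤ _
    unfold avg
    rw [Measure.smul_apply, Measure.finsetSum_apply, smul_eq_mul]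
    have h1 : ∀ i ∈ range s, ((μ : Measure UnitAddCircle).map (φ i)) {z}
        = (μ : Measure UnitAddCircle) {z - p ^ i • yp p s} := by
      intro i _
      rw [Measure.map_apply (hφ i) (measurableSet_singleton z)]
      congr 1
      ext x
      simp only [Set.mem_preimage, Set.mem_singleton_iff, hφdef]
      exact eq_sub_iff_add_eq.symm
    rw [sum_congr rfl h1]
    have h2 : ∑ i ∈ range s, (μ : Measure UnitAddCircle) {z - p ^ i • yp p s}
        = (μ : Measure UnitAddCircle) (⋃ i ∈ range s, {z - p ^ i • yp p s}) := by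
      rw [measure_biUnion_finset]
      · intro i hi j hj hij
        simp only [Function.onFun, Set.disjoint_singleton]
        intro h
        apply hij
        exact yp_inj p hp s hs i j (mem_range.mp hi) (mem_range.mp hj) (sub_right_injective h)
      · intro i _
        exact measurableSet_singleton _
    rw [h2]
    calc (s : ℝ≥0∞)⁻¹ * (μ : Measure UnitAddCircle) (⋃ i ∈ range s, {z - p ^ i • yp p s})
        ≤ (s : ℝ≥0∞)⁻¹ * 1 := by gcongr; exact prob_le_one
      _ = _ := mul_one _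
  · intro j
    apply avg_fourier p hp (μ : Measure UnitAddCircle) s hs0 φ
      (fun _ x => x) hφ (fun i => measurable_id)
      (fun i => Measure.map_id)
    intro i _ x
    simp only [hφdef]
    rw [add_sub_cancel_left]
    refine (norm_nsmul_le).trans ?_
    have h1 : ‖yp p s‖ ≤ 2 / p ^ s := by
      unfold yp
      refine (norm_coe_le_abs _).trans ?_
      have h1 := one_lt_ppow p hp s (by omega)
      rw [abs_of_pos (by
        have : (0 : ℝ) < (p : ℝ) ^ s - 1 := by linarith
        positivity)]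
      exact inv_bound p hp s (by omega)
    push_cast
    calc (p : ℝ) ^ i * ‖yp p s‖ ≤ p ^ i * (2 / p ^ s) := by gcongr
      _ = 2 * p ^ i / p ^ s := by ring

end Pool.Agent.DilatesP
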