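import Mathlib
import Pool.Agent.Dilates.KeyProp
import Pool.Agent.DilatesP.Dens

set_option autoImplicit false

open Finset MeasureTheory Filter Topology
open scoped ENNReal

namespace Pool.Agent.DilatesP

open Pool.Agent.Dilates

theorem key_prop (p : ℕ) (hp : 2 ≤ p) (k : ℤ) (hk : ¬ (p : ℤ) ∣ k) (ε : ℝ) (hε : 0 < ε)
    (W : Set (ProbabilityMeasure UnitAddCircle)) (hW : IsOpen W) (hne : (W ∩ PP p).Nonempty)
    (η : ℝ) (hη : 0 < η) :
    ∃ U : Set (ProbabilityMeasure UnitAddCircle), IsOpen U ∧ U ⊆ W ∧ (U ∩ PP p).Nonempty ∧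
      ∃ m₀ : ℕ, ∀ m ≥ m₀, ∃ B : Finset ℕ, (B.card : ℝ) ≤ p ^ m * η ∧
        ∀ c : ℕ, c < p ^ m → c ∉ B → ∀ μ ∈ U ∩ PP p,
          ‖∫ x, (fourier (k * c) x : ℂ) ∂(μ : Measure UnitAddCircle)‖ ≤ 3 * ε := by
  have hp0 : 0 < p := by omega
  have hp0' : (0 : ℝ) < p := by exact_mod_cast hp0
  have hp1' : (1 : ℝ) < p := by exact_mod_cast (by omega : 1 < p)
  obtain ⟨δ, hδ, hcore⟩ := core p hp k hk ε hε
  obtain ⟨μ, hμW, hμ⟩ := hne
  -- first approximation
  choose ν hν1 hν2 hν3 using fun n : ℕ => dens1 p hp μ hμ (n + 1) (by omega)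
  have hνlim : Tendsto ν atTop (𝓝 μ) :=
    tendsto_of_bound μ ν (fun n => n + 1) (tendsto_add_atTop_nat 1) (fun n j => hν3 n j)
  obtain ⟨n, hn⟩ := (hνlim.eventually (hW.mem_nhds hμW)).exists
  set K : ℕ := p ^ (n + 1) - 1 with hKdef
  have hK : Nat.Coprime K p := by
    have h1 : 1 ≤ p ^ (n + 1) := Nat.one_le_pow _ _ hp0
    have h2 : Nat.Coprime K (K + 1) := by simp
    have h3 : K + 1 = p ^ (n + 1) := by omega
    rw [h3] at h2
    exact Nat.Coprime.coprime_dvd_right (dvd_pow_self p (by omega)) h2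
  obtain ⟨L₁, hL₁⟩ := hcore K hK η hη
  set g : C(UnitAddCircle, ℝ) := ⟨fun x => ‖K • x‖, (continuous_const_smul K).norm⟩ with hg
  set W' : Set (ProbabilityMeasure UnitAddCircle) :=
    W ∩ {μ | ∫ x, ‖K • x‖ ∂(μ : Measure UnitAddCircle) < δ * ε} with hW'def
  have hW' : IsOpen W' := by
    apply hW.inter
    exact isOpen_lt (ProbabilityMeasure.continuous_integral_continuousMap g) continuous_const
  have hνW' : ν n ∈ W' := by
    refine ⟨hn, ?_⟩
    change ∫ x, ‖K • x‖ ∂(ν n : Measure UnitAddCircle) < δ * ε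
    rw [hν2 n]; positivity
  -- second approximation
  set F : Set UnitAddCircle := tors (p ^ L₁) with hF
  have hFfin : F.Finite := tors_finite _
  choose ξ hξ1 hξ2 hξ3 using fun n' : ℕ => dens2 p hp (ν n) (hν1 n) (n' + 2) (by omega)
  have hξlim : Tendsto ξ atTop (𝓝 (ν n)) :=
    tendsto_of_bound (ν n) ξ (fun n' => n' + 2) (tendsto_add_atTop_nat 2) (fun n' j => hξ3 n' j)
  have hev1 := hξlim.eventually (hW'.mem_nhds hνW')
  have hev2 : ∀ᶠ n' : ℕ in atTop, (hFfin.toFinset.card : ℝ) / ((n' + 2 : ℕ) : ℝ) < ε := by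
    have h1 : Tendsto (fun n' : ℕ => ((n' + 2 : ℕ) : ℝ)) atTop atTop :=
      tendsto_natCast_atTop_atTop.comp (tendsto_add_atTop_nat 2)
    exact (h1.const_div_atTop _).eventually (gt_mem_nhds hε)
  obtain ⟨n', hn'1, hn'2⟩ := (hev1.and hev2).exists
  set ζ := ξ n' with hζ
  have hζF : (ζ : Measure UnitAddCircle) F < ENNReal.ofReal ε := by
    have h1 : F = ⋃ z ∈ hFfin.toFinset, {z} := by
      ext x; simp
    have h2 : (ζ : Measure UnitAddCircle) F
        ≤ ∑ z ∈ hFfin.toFinset, (ζ : Measure UnitAddCircle) {z} := by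
      conv_lhs => rw [h1]
      exact measure_biUnion_finset_le _ _
    have h3 : ∑ z ∈ hFfin.toFinset, (ζ : Measure UnitAddCircle) {z}
        ≤ ∑ z ∈ hFfin.toFinset, ((n' + 2 : ℕ) : ℝ≥0∞)⁻¹ :=
      sum_le_sum fun z _ => hξ2 n' z
    refine (h2.trans h3).trans_lt ?_
    rw [sum_const, nsmul_eq_mul, ← div_eq_mul_inv]
    have h4 : ((hFfin.toFinset.card : ℕ) : ℝ≥0∞) / ((n' + 2 : ℕ) : ℝ≥0∞)
        = ENNReal.ofReal ((hFfin.toFinset.card : ℝ) / ((n' + 2 : ℕ) : ℝ)) := by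
      rw [ENNReal.ofReal_div_of_pos (by positivity), ENNReal.ofReal_natCast,
        ENNReal.ofReal_natCast]
    rw [h4]
    exact (ENNReal.ofReal_lt_ofReal_iff hε).mpr hn'2
  -- thickening
  have hlim := tendsto_measure_cthickening_of_isCompact (μ := (ζ : Measure UnitAddCircle))
    hFfin.isCompact
  have hpow : Tendsto (fun m : ℕ => (1 : ℝ) / p ^ m) atTop (𝓝 0) := by
    have := tendsto_pow_atTop_nhds_zero_of_lt_one (r := (1 / p : ℝ)) (by positivity)
      (by rw [div_lt_one hp0']; exact hp1')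
    simpa [one_div] using this
  obtain ⟨m₀, hm₀⟩ := ((hlim.comp hpow).eventually (gt_mem_nhds hζF)).exists
  simp only [Function.comp] at hm₀
  set C : Set UnitAddCircle := Metric.cthickening (1 / p ^ m₀) F with hC
  have hCclosed : IsClosed C := Metric.isClosed_cthickening
  have hCε : (ζ : Measure UnitAddCircle).real C < ε := by
    rw [Measure.real, ← ENNReal.ofReal_lt_ofReal_iff hε, ENNReal.ofReal_toReal (by finiteness)]
    exact hm₀
  set e' : ℝ := ε - (ζ : Measure UnitAddCircle).real C with he'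
  have he'pos : 0 < e' := by rw [he']; linarith
  have hnhd := ProbabilityMeasure.toMeasure_add_pos_gt_mem_nhds ζ hCclosed.isOpen_compl
    (ε := ENNReal.ofReal e') (by simpa using he'pos)
  obtain ⟨U₁, hU₁sub, hU₁open, hζU₁⟩ := mem_nhds_iff.mp hnhd
  refine ⟨W' ∩ U₁, hW'.inter hU₁open, fun x hx => hx.1.1, ⟨ζ, ⟨hn'1, hζU₁⟩, hξ1 n'⟩, m₀, ?_⟩
  intro m hm
  obtain ⟨B, hB1, hB2⟩ := hL₁ m
  refine ⟨B, hB1, ?_⟩
  intro c hc hcB κ hκ
  obtain ⟨⟨hκW', hκU₁⟩, hκP⟩ := hκ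
  have hNsub : ∀ x : ℝ, (∃ q : ℕ, 0 < q ∧ q ≤ p ^ L₁ ∧ ∃ b : ℤ, |x - b / q| ≤ 1 / p ^ m) →
      ((x : ℝ) : UnitAddCircle) ∈ C := by
    rintro x ⟨q, hq0, hq, b, hb⟩
    refine Metric.mem_cthickening_of_dist_le _ (((b : ℝ) / q : ℝ) : UnitAddCircle) _ _
      (mem_tors _ q hq0 hq b) ?_
    rw [dist_eq_norm, ← AddCircle.coe_sub]
    refine (norm_coe_le_abs _).trans (hb.trans ?_)
    have : (p : ℝ) ^ m₀ ≤ p ^ m := pow_le_pow_right₀ hp1'.le hm
    have h0 : (0 : ℝ) < p ^ m₀ := by positivity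
    gcongr
  have hkb := key_bound p k c m L₁ K ε δ hε.le hδ (hB2 c hc hcB) κ hκP C hCclosed.measurableSet
    hNsub
  refine hkb.trans ?_
  have h1 : δ⁻¹ * ∫ x, ‖K • x‖ ∂(κ : Measure UnitAddCircle) ≤ ε := by
    have h2 : ∫ x, ‖K • x‖ ∂(κ : Measure UnitAddCircle) < δ * ε := hκW'.2
    rw [inv_mul_le_iff₀ hδ]
    exact h2.le
  have h3 : (κ : Measure UnitAddCircle).real C ≤ ε := by
    have h4 : (ζ : Measure UnitAddCircle) Cᶜ
        < (κ : Measure UnitAddCircle) Cᶜ + ENNReal.ofReal e' := hU₁sub hκU₁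
    have h5 : (ζ : Measure UnitAddCircle).real Cᶜ
        ≤ (κ : Measure UnitAddCircle).real Cᶜ + e' := by
      have h6 := ENNReal.toReal_mono (by finiteness) h4.le
      rw [ENNReal.toReal_add (by finiteness) (by finiteness),
        ENNReal.toReal_ofReal he'pos.le] at h6
      exact h6
    rw [probReal_compl_eq_one_sub hCclosed.measurableSet,
      probReal_compl_eq_one_sub hCclosed.measurableSet] at h5
    rw [he'] at h5
    linarith
  linarith

open Classical in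
/-- The same statement with one exceptional set of multipliers of small upper density. -/
theorem key_density (p : ℕ) (hp : 2 ≤ p) (k : ℤ) (hk : ¬ (p : ℤ) ∣ k) (ε : ℝ) (hε : 0 < ε)
    (W : Set (ProbabilityMeasure UnitAddCircle)) (hW : IsOpen W) (hne : (W ∩ PP p).Nonempty)
    (η : ℝ) (hη : 0 < η) :
    ∃ U : Set (ProbabilityMeasure UnitAddCircle), IsOpen U ∧ U ⊆ W ∧ (U ∩ PP p).Nonempty ∧
      ∃ (B : Set ℕ) (c₀ : ℕ),
        (∀ N : ℕ, (((range (N + 1)).filter (fun c => c ∈ B)).card : ℝ) ≤ η * N) ∧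
        ∀ c ≥ c₀, c ∉ B → ∀ μ ∈ U ∩ PP p,
          ‖∫ x, (fourier (k * c) x : ℂ) ∂(μ : Measure UnitAddCircle)‖ ≤ 3 * ε := by
  have hp0 : 0 < p := by omega
  have hp1 : 1 < p := by omega
  have hp0' : (0 : ℝ) < p := by exact_mod_cast hp0
  have hp2' : (2 : ℝ) ≤ p := by exact_mod_cast hp
  obtain ⟨U, hU, hUW, hUne, m₀, hm₀⟩ := key_prop p hp k hk ε hε W hW hne (η / (2 * p))
    (by positivity)
  choose Bf hB1 hB2 using hm₀
  obtain ⟨Bs, hBs⟩ : ∃ Bs : Set ℕ, ∀ c : ℕ, c ∈ Bs ↔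
      ∃ h : m₀ ≤ Nat.log p c + 1, 1 ≤ c ∧ c ∈ Bf (Nat.log p c + 1) h := ⟨_, fun c => Iff.rfl⟩
  refine ⟨U, hU, hUW, hUne, Bs, p ^ m₀, ?_, ?_⟩
  · intro N
    rcases Nat.eq_zero_or_pos N with rfl | hN
    · have h1 : (range (0 + 1)).filter (fun c : ℕ => c ∈ Bs) = ∅ := by
        rw [filter_eq_empty_iff]
        intro c hc
        rw [mem_range] at hc
        rw [hBs]
        rintro ⟨h, h1, -⟩
        omega
      rw [h1]; simp
    set M := Nat.log p N with hM
    have hsub : (range (N + 1)).filter (fun c : ℕ => c ∈ Bs)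
        ⊆ (range (M + 2)).biUnion (fun m => if h : m₀ ≤ m then Bf m h else ∅) := by
      intro c hc
      rw [mem_filter, mem_range, hBs] at hc
      obtain ⟨hcN, h, hc1, hcB⟩ := hc
      rw [mem_biUnion]
      refine ⟨Nat.log p c + 1, ?_, ?_⟩
      · rw [mem_range]
        have : Nat.log p c ≤ M := Nat.log_mono_right (by omega)
        omega
      · rw [dif_pos h]; exact hcB
    have h1 := (card_le_card hsub).trans card_biUnion_le
    have h2 : (((range (N + 1)).filter (fun c : ℕ => c ∈ Bs)).card : ℝ)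
        ≤ ∑ m ∈ range (M + 2),
          ((((if h : m₀ ≤ m then Bf m h else ∅ : Finset ℕ)).card : ℕ) : ℝ) := by
      exact_mod_cast h1
    have h3 : ∀ m ∈ range (M + 2),
        ((((if h : m₀ ≤ m then Bf m h else ∅ : Finset ℕ)).card : ℕ) : ℝ)
        ≤ (η / (2 * p)) * (p : ℝ) ^ m := by
      intro m _
      split_ifs with h
      · have := hB1 m h
        linarith
      · simp only [card_empty, Nat.cast_zero]; positivity
    refine (h2.trans (sum_le_sum h3)).trans ?_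
    rw [← mul_sum]
    have h4 : ∑ m ∈ range (M + 2), (p : ℝ) ^ m ≤ 2 * p * N := by
      rw [geom_sum_eq (by linarith)]
      rw [div_le_iff₀ (by linarith)]
      have h5 : (p : ℝ) ^ M ≤ N := by
        have := Nat.pow_log_le_self p (x := N) (by omega)
        rw [← hM] at this
        exact_mod_cast this
      have h6 : (p : ℝ) ^ (M + 2) = p ^ M * (p * p) := by ring
      rw [h6]
      have hN' : (0 : ℝ) < N := by exact_mod_cast hN
      have h7 : (p : ℝ) ^ M * (p * p) ≤ N * (p * p) := by gcongr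
      nlinarith [mul_pos hN' hp0', mul_nonneg (mul_nonneg hN'.le hp0'.le)
        (by linarith : (0 : ℝ) ≤ p - 2)]
    calc η / (2 * p) * ∑ m ∈ range (M + 2), (p : ℝ) ^ m ≤ η / (2 * p) * (2 * p * N) := by
          gcongr
      _ = η * N := by field_simp
  · intro c hc hcB μ hμ
    have hpm0 : 0 < p ^ m₀ := Nat.pow_pos hp0
    have hc1 : 1 ≤ c := by omega
    have hlog : m₀ ≤ Nat.log p c := Nat.le_log_of_pow_le hp1 hc
    have hm : m₀ ≤ Nat.log p c + 1 := by omega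
    refine hB2 (Nat.log p c + 1) hm c (Nat.lt_pow_succ_log_self hp1 c) ?_ μ hμ
    intro hmem
    exact hcB ((hBs c).mpr ⟨hm, hc1, hmem⟩)

end Pool.Agent.DilatesP
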