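import Mathlib
import Pool.Agent.Dilates.Final
import Pool.Agent.DilatesP.KeyProp

set_option autoImplicit false

open Finset MeasureTheory Filter Topology TopologicalSpace
open scoped ENNReal

namespace Pool.Agent.DilatesP

open Pool.Agent.Dilates

theorem PP_nonempty (p : ℕ) : (PP p).Nonempty := by
  refine ⟨⟨Measure.dirac 0, inferInstance⟩, ?_⟩
  change (Measure.dirac (0 : UnitAddCircle)).map (fun x : UnitAddCircle => p • x)
    = Measure.dirac 0
  rw [Measure.map_dirac' (continuous_p_smul p).measurable]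
  simp

theorem PP_isClosed (p : ℕ) : IsClosed (PP p) := by
  have h1 : PP p = {ν : ProbabilityMeasure UnitAddCircle |
      ν.map (f := fun x : UnitAddCircle => p • x) (continuous_p_smul p).measurable.aemeasurable
        = ν} := by
    ext ν
    constructor
    · intro h
      apply Subtype.ext
      exact h
    · intro h
      exact congrArg (fun ν : ProbabilityMeasure UnitAddCircle => (ν : Measure UnitAddCircle)) h
  rw [h1]
  exact isClosed_eq (ProbabilityMeasure.continuous_map (continuous_p_smul p)) continuous_id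

open Classical in
/-- One exceptional set of multipliers of small density serving all bases, all frequencies and
all open sets. -/
theorem generic_set (η : ℝ) (hη : 0 < η) : ∃ B : Set ℕ,
    (∀ N : ℕ, (((range (N + 1)).filter (fun c => c ∈ B)).card : ℝ) ≤ η * N) ∧
    ∀ p : ℕ, 2 ≤ p → ∀ k : ℤ, ¬ (p : ℤ) ∣ k → ∀ j : ℕ,
      ∀ V : Set (ProbabilityMeasure UnitAddCircle), IsOpen V →
      (V ∩ PP p).Nonempty → ∃ U : Set (ProbabilityMeasure UnitAddCircle), IsOpen U ∧ U ⊆ V ∧
        (U ∩ PP p).Nonempty ∧ ∃ c₀ : ℕ, ∀ c ≥ c₀, c ∉ B → ∀ μ ∈ U ∩ PP p,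
          ‖∫ x, (fourier (k * c) x : ℂ) ∂(μ : Measure UnitAddCircle)‖
            ≤ 3 * (1 / ((j : ℝ) + 1)) := by
  have := secondCountable
  set b := countableBasis (ProbabilityMeasure UnitAddCircle) with hb
  have hbc : b.Countable := countable_countableBasis _
  let ι : Type := Σ p : {p : ℕ // 2 ≤ p},
    ({W : Set (ProbabilityMeasure UnitAddCircle) // W ∈ b ∧ (W ∩ PP p.1).Nonempty}
      × {k : ℤ // ¬ (p.1 : ℤ) ∣ k} × ℕ)
  have hsub : ∀ (p : ℕ) (V : Set (ProbabilityMeasure UnitAddCircle)), IsOpen V →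
      (V ∩ PP p).Nonempty → ∃ W ∈ b, W ⊆ V ∧ (W ∩ PP p).Nonempty := by
    rintro p V hV ⟨μ, hμV, hμ⟩
    obtain ⟨W, hWb, hμW, hWV⟩ := (isBasis_countableBasis _).exists_subset_of_mem_open hμV hV
    exact ⟨W, hWb, hWV, μ, hμW, hμ⟩
  have hcount : Countable ι := by
    have h1 : ∀ p : ℕ, Countable {W : Set (ProbabilityMeasure UnitAddCircle) //
        W ∈ b ∧ (W ∩ PP p).Nonempty} := fun p =>
      (hbc.mono (fun W hW => hW.1 : {W | W ∈ b ∧ (W ∩ PP p).Nonempty} ⊆ b)).to_subtype
    infer_instance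
  have hnonempty : Nonempty ι := by
    obtain ⟨W, hWb, -, hW⟩ := hsub 2 Set.univ isOpen_univ (by simpa using PP_nonempty 2)
    exact ⟨⟨⟨2, le_rfl⟩, ⟨W, hWb, hW⟩, ⟨1, by norm_num⟩, 0⟩⟩
  obtain ⟨f, hf⟩ := exists_surjective_nat ι
  choose U hUo hUW hUne B c₀ hBcard hB using fun t : ℕ =>
    key_density (f t).1.1 (f t).1.2 (f t).2.2.1.1 (f t).2.2.1.2
      (1 / (((f t).2.2.2 : ℝ) + 1)) (by positivity) (f t).2.1.1
      ((isBasis_countableBasis _).isOpen (f t).2.1.2.1) (f t).2.1.2.2 (η * (1 / 2 : ℝ) ^ (t + 1))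
      (by positivity)
  obtain ⟨A, hA⟩ : ∃ A : Set ℕ, ∀ c : ℕ, c ∈ A ↔ ∃ t < c, c ∈ B t := ⟨_, fun c => Iff.rfl⟩
  refine ⟨A, ?_, ?_⟩
  · intro N
    have hsub2 : (range (N + 1)).filter (fun c => c ∈ A)
        ⊆ (range N).biUnion (fun t => (range (N + 1)).filter (fun c => c ∈ B t)) := by
      intro c hc
      rw [mem_filter, mem_range, hA] at hc
      obtain ⟨hcN, t, htc, hcB⟩ := hc
      rw [mem_biUnion]
      refine ⟨t, mem_range.mpr (by omega), ?_⟩
      rw [mem_filter, mem_range]
      exact ⟨hcN, hcB⟩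
    have h1 := (card_le_card hsub2).trans card_biUnion_le
    have h2 : (((range (N + 1)).filter (fun c => c ∈ A)).card : ℝ)
        ≤ ∑ t ∈ range N, (((range (N + 1)).filter (fun c => c ∈ B t)).card : ℝ) := by
      exact_mod_cast h1
    refine (h2.trans (sum_le_sum fun t _ => hBcard t N)).trans ?_
    have h3 : ∀ t ∈ range N, η * (1 / 2 : ℝ) ^ (t + 1) * N = (η * N / 2) * (1 / 2 : ℝ) ^ t := by
      intro t _
      rw [pow_succ]; ring
    rw [sum_congr rfl h3, ← mul_sum]
    have h4 : ∑ t ∈ range N, (1 / 2 : ℝ) ^ t ≤ 2 := by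
      rw [geom_sum_eq (by norm_num)]
      have : (0 : ℝ) < (1 / 2) ^ N := by positivity
      rw [div_le_iff_of_neg (by norm_num)]
      linarith
    have h5 : (0 : ℝ) ≤ η * N / 2 := by positivity
    nlinarith
  · intro p hp k hk j V hV hVne
    obtain ⟨W, hWb, hWV, hWne⟩ := hsub p V hV hVne
    obtain ⟨t, ht⟩ := hf ⟨⟨p, hp⟩, ⟨W, hWb, hWne⟩, ⟨k, hk⟩, j⟩
    have e0 : (f t).1.1 = p := by rw [ht]
    have e1 : (f t).2.1.1 = W := by rw [ht]
    have e2 : (f t).2.2.1.1 = k := by rw [ht]
    have e3 : (f t).2.2.2 = j := by rw [ht]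
    refine ⟨U t, hUo t, ?_, ?_, max (t + 1) (c₀ t), ?_⟩
    · exact (hUW t).trans (by rw [e1]; exact hWV)
    · have := hUne t
      rw [e0] at this
      exact this
    · intro c hc hcA μ hμ
      have hc1 : t < c := lt_of_lt_of_le (Nat.lt_succ_self t) ((le_max_left _ _).trans hc)
      have hc2 : c₀ t ≤ c := (le_max_right _ _).trans hc
      have hnot : c ∉ B t := by
        intro hmem
        exact hcA ((hA c).mpr ⟨t, hc1, hmem⟩)
      have h1 := hB t c hc2 hnot μ (by rw [e0]; exact hμ)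
      rw [e2, e3] at h1
      exact h1

theorem tendsto_all (p : ℕ) (hp : 2 ≤ p) (c : ℕ → ℕ) (μ : ProbabilityMeasure UnitAddCircle)
    (hμ : μ ∈ PP p)
    (h : ∀ k : ℤ, ¬ (p : ℤ) ∣ k → Tendsto (fun n => ∫ x, (fourier (k * c n) x : ℂ)
      ∂(μ : Measure UnitAddCircle)) atTop (𝓝 0)) (g : C(UnitAddCircle, ℝ)) :
    Tendsto (fun n : ℕ => ∫ x, g x
        ∂((μ : Measure UnitAddCircle).map (fun x : UnitAddCircle => ((c n : ℕ) : ℤ) • x)))
      atTop (𝓝 (∫ x, g x)) := by
  have hcm : ∀ n, Measurable (fun x : UnitAddCircle => ((c n : ℕ) : ℤ) • x) := fun n =>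
    (continuous_const_smul _).measurable
  have hprob : ∀ n, IsProbabilityMeasure
      ((μ : Measure UnitAddCircle).map (fun x : UnitAddCircle => ((c n : ℕ) : ℤ) • x)) := fun n =>
    Measure.isProbabilityMeasure_map (hcm n).aemeasurable
  have hfour : ∀ j : ℤ, Tendsto (fun n => ∫ x, (fourier j x : ℂ)
      ∂((μ : Measure UnitAddCircle).map (fun x : UnitAddCircle => ((c n : ℕ) : ℤ) • x))) atTop
      (𝓝 (∫ x : UnitAddCircle, (fourier j x : ℂ))) := by
    intro j
    have hint : ∀ n, ∫ x, (fourier j x : ℂ)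
        ∂((μ : Measure UnitAddCircle).map (fun x : UnitAddCircle => ((c n : ℕ) : ℤ) • x))
        = ∫ x, (fourier (j * c n) x : ℂ) ∂(μ : Measure UnitAddCircle) := by
      intro n
      rw [integral_map (hcm n).aemeasurable
        (map_continuous (fourier j)).stronglyMeasurable.aestronglyMeasurable]
      refine integral_congr_ae (ae_of_all _ fun x => ?_)
      simp only [fourier_apply, smul_smul]
    simp only [hint]
    by_cases hj : j = 0
    · subst hj
      simp
    · rw [integral_fourier_volume j hj]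
      -- write j = p ^ a * k with k not divisible by p
      obtain ⟨a, k, hk, hjk⟩ : ∃ (a : ℕ) (k : ℤ), ¬ (p : ℤ) ∣ k ∧ j = p ^ a * k := by
        have hfin : FiniteMultiplicity (p : ℤ) j := by
          rw [Int.finiteMultiplicity_iff]
          exact ⟨by simpa using (by omega : p ≠ 1), hj⟩
        obtain ⟨k, hjk, hk⟩ := hfin.exists_eq_pow_mul_and_not_dvd
        exact ⟨_, k, hk, hjk⟩
      refine (h k hk).congr fun n => ?_
      have h1 := integral_map (μ := (μ : Measure UnitAddCircle))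
        (φ := fun x : UnitAddCircle => p ^ a • x)
        (continuous_const_smul (p ^ a)).measurable.aemeasurable
        (f := fun x : UnitAddCircle => (fourier (k * c n) x : ℂ))
        (map_continuous (fourier (k * c n))).stronglyMeasurable.aestronglyMeasurable
      rw [map_p_pow p _ hμ a] at h1
      rw [h1]
      refine integral_congr_ae (ae_of_all _ fun x => ?_)
      simp only [fourier_apply]
      congr 2
      rw [hjk, ← natCast_zsmul x (p ^ a), smul_smul]
      congr 1
      push_cast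
      ring
  have hg := tendsto_integral_of_fourier atTop
    (fun n => (μ : Measure UnitAddCircle).map (fun x : UnitAddCircle => ((c n : ℕ) : ℤ) • x))
    (volume : Measure UnitAddCircle) hfour
    ⟨fun x => (g x : ℂ), Complex.continuous_ofReal.comp g.continuous⟩
  have e1 : ∀ ν : Measure UnitAddCircle, ∫ x, ((g x : ℝ) : ℂ) ∂ν = ((∫ x, g x ∂ν : ℝ) : ℂ) :=
    fun ν => integral_ofReal
  simp only [ContinuousMap.coe_mk, e1] at hg
  have hg2 := (Complex.continuous_re.tendsto _).comp hg
  simp only [Function.comp_def, Complex.ofReal_re] at hg2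
  exact hg2

/-- Being of small mass on a closed set is an open condition. -/
theorem eventually_real_lt (ζ : ProbabilityMeasure UnitAddCircle) (F : Set UnitAddCircle)
    (hF : IsClosed F) (ε : ℝ) (h : (ζ : Measure UnitAddCircle).real F < ε) :
    ∀ᶠ κ : ProbabilityMeasure UnitAddCircle in 𝓝 ζ, (κ : Measure UnitAddCircle).real F < ε := by
  set e' : ℝ := (ε - (ζ : Measure UnitAddCircle).real F) / 2 with he'
  have he'pos : 0 < e' := by rw [he']; linarith
  have hnhd := ProbabilityMeasure.toMeasure_add_pos_gt_mem_nhds ζ hF.isOpen_compl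
    (ε := ENNReal.ofReal e') (by simpa using he'pos)
  filter_upwards [hnhd] with κ hκ
  have h4 : (ζ : Measure UnitAddCircle) Fᶜ
      < (κ : Measure UnitAddCircle) Fᶜ + ENNReal.ofReal e' := hκ
  have h5 : (ζ : Measure UnitAddCircle).real Fᶜ
      ≤ (κ : Measure UnitAddCircle).real Fᶜ + e' := by
    have h6 := ENNReal.toReal_mono (by finiteness) h4.le
    rw [ENNReal.toReal_add (by finiteness) (by finiteness),
      ENNReal.toReal_ofReal he'pos.le] at h6
    exact h6
  rw [probReal_compl_eq_one_sub hF.measurableSet,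
    probReal_compl_eq_one_sub hF.measurableSet] at h5
  rw [he'] at h5
  linarith

/-- Near a measure with small atoms all measures have small atoms. -/
theorem eventually_atoms (ζ : ProbabilityMeasure UnitAddCircle) (ε : ℝ)
    (h : ∀ z : UnitAddCircle, (ζ : Measure UnitAddCircle).real {z} < ε) :
    ∀ᶠ κ : ProbabilityMeasure UnitAddCircle in 𝓝 ζ, ∀ z : UnitAddCircle, (κ : Measure UnitAddCircle).real {z} < ε := by
  have hr : ∀ z : UnitAddCircle, ∃ r : ℝ, 0 < r ∧
      (ζ : Measure UnitAddCircle).real (Metric.closedBall z r) < ε := by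
    intro z
    have hε : 0 < ε := lt_of_le_of_lt measureReal_nonneg (h z)
    have hz : (ζ : Measure UnitAddCircle) {z} < ENNReal.ofReal ε := by
      have := h z
      rw [Measure.real, ← ENNReal.ofReal_lt_ofReal_iff hε,
        ENNReal.ofReal_toReal (by finiteness)] at this
      exact this
    have hlim := tendsto_measure_cthickening_of_isCompact (μ := (ζ : Measure UnitAddCircle))
      (isCompact_singleton (x := z))
    have hpow : Tendsto (fun m : ℕ => (1 : ℝ) / ((m : ℝ) + 1)) atTop (𝓝 0) :=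
      tendsto_one_div_add_atTop_nhds_zero_nat
    obtain ⟨m, hm⟩ := ((hlim.comp hpow).eventually (gt_mem_nhds hz)).exists
    simp only [Function.comp] at hm
    refine ⟨1 / ((m : ℝ) + 1), by positivity, ?_⟩
    rw [Metric.cthickening_singleton z (by positivity)] at hm
    rw [Measure.real, ← ENNReal.ofReal_lt_ofReal_iff hε, ENNReal.ofReal_toReal (by finiteness)]
    exact hm
  choose r hr0 hr1 using hr
  obtain ⟨t, -, ht⟩ := (isCompact_univ (X := UnitAddCircle)).elim_nhds_subcover
    (fun z => Metric.ball z (r z)) (fun z _ => Metric.ball_mem_nhds z (hr0 z))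
  have hev : ∀ᶠ κ : ProbabilityMeasure UnitAddCircle in 𝓝 ζ, ∀ z ∈ t,
      (κ : Measure UnitAddCircle).real (Metric.closedBall z (r z)) < ε := by
    rw [Filter.eventually_all_finset]
    intro z _
    exact eventually_real_lt ζ _ Metric.isClosed_closedBall ε (hr1 z)
  filter_upwards [hev] with κ hκ z
  have hz := ht (Set.mem_univ z)
  simp only [Set.mem_iUnion] at hz
  obtain ⟨z', hz't, hzz'⟩ := hz
  refine lt_of_le_of_lt ?_ (hκ z' hz't)
  refine measureReal_mono ?_ (by finiteness)
  rw [Set.singleton_subset_iff]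
  exact Metric.ball_subset_closedBall hzz'

theorem exists_small_atoms (p : ℕ) (hp : 2 ≤ p) (V : Set (ProbabilityMeasure UnitAddCircle))
    (hV : IsOpen V) (hne : (V ∩ PP p).Nonempty) (ε : ℝ) (hε : 0 < ε) :
    ∃ U : Set (ProbabilityMeasure UnitAddCircle), IsOpen U ∧ U ⊆ V ∧ (U ∩ PP p).Nonempty ∧
      ∀ κ ∈ U, ∀ z : UnitAddCircle, (κ : Measure UnitAddCircle).real {z} < ε := by
  obtain ⟨μ, hμV, hμ⟩ := hne
  choose ξ hξ1 hξ2 hξ3 using fun n : ℕ => dens2 p hp μ hμ (n + 2) (by omega)
  have hξlim : Tendsto ξ atTop (𝓝 μ) :=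
    tendsto_of_bound μ ξ (fun n => n + 2) (tendsto_add_atTop_nat 2) (fun n j => hξ3 n j)
  have hev1 := hξlim.eventually (hV.mem_nhds hμV)
  have hev2 : ∀ᶠ n : ℕ in atTop, (1 : ℝ) / ((n + 2 : ℕ) : ℝ) < ε := by
    have h1 : Tendsto (fun n : ℕ => ((n + 2 : ℕ) : ℝ)) atTop atTop :=
      tendsto_natCast_atTop_atTop.comp (tendsto_add_atTop_nat 2)
    exact (h1.const_div_atTop _).eventually (gt_mem_nhds hε)
  obtain ⟨n, hn1, hn2⟩ := (hev1.and hev2).exists
  have hat : ∀ z : UnitAddCircle, (ξ n : Measure UnitAddCircle).real {z} < ε := by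
    intro z
    refine lt_of_le_of_lt ?_ hn2
    have h1 := ENNReal.toReal_mono (by simp) (hξ2 n z)
    rw [ENNReal.toReal_inv, ENNReal.toReal_natCast] at h1
    rw [one_div]
    exact h1
  have hev := eventually_atoms (ξ n) ε hat
  obtain ⟨U₁, hU₁sub, hU₁open, hξU₁⟩ := mem_nhds_iff.mp hev
  exact ⟨V ∩ U₁, hV.inter hU₁open, Set.inter_subset_left, ⟨ξ n, ⟨hn1, hξU₁⟩, hξ1 n⟩,
    fun κ hκ => hU₁sub hκ.2⟩

/-- Locally certified properties are generic. -/
theorem residual_of_local (p : ℕ)
    (Q : Set (ProbabilityMeasure UnitAddCircle) → Prop)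
    (hQ : ∀ V : Set (ProbabilityMeasure UnitAddCircle), IsOpen V → (V ∩ PP p).Nonempty →
      ∃ U : Set (ProbabilityMeasure UnitAddCircle), IsOpen U ∧ U ⊆ V ∧ (U ∩ PP p).Nonempty ∧
        Q U) :
    {μ : {ν : ProbabilityMeasure UnitAddCircle //
          (ν : Measure UnitAddCircle).map (fun x : UnitAddCircle => p • x)
            = (ν : Measure UnitAddCircle)} |
      ∃ U : Set (ProbabilityMeasure UnitAddCircle), IsOpen U ∧ μ.1 ∈ U ∧ Q U}
      ∈ residual _ := by
  apply residual_of_dense_open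
  · rw [isOpen_iff_forall_mem_open]
    rintro μ ⟨U, hU, hμU, hQU⟩
    refine ⟨Subtype.val ⁻¹' U, ?_, hU.preimage continuous_subtype_val, hμU⟩
    intro μ' hμ'
    exact ⟨U, hU, hμ', hQU⟩
  · rw [dense_iff_inter_open]
    intro V hV hVne
    obtain ⟨V', hV', rfl⟩ := isOpen_induced_iff.mp hV
    obtain ⟨μ, hμ⟩ := hVne
    obtain ⟨U, hU, hUV, ⟨ν, hνU, hν⟩, hQU⟩ := hQ V' hV' ⟨μ.1, hμ, μ.2⟩
    exact ⟨⟨ν, hν⟩, hUV hνU, U, hU, hνU, hQU⟩

open Classical in
/-- The main theorem: one set of integers of density close to one whose dilates send the generic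
invariant measure, for every base, to Lebesgue measure. -/
theorem main (ε : ℝ) (hε : 0 < ε) :
    ∃ c : ℕ → ℕ, StrictMono c ∧ (∀ n : ℕ, 0 < c n ∧ (c n : ℝ) ≤ (1 + ε) * (n + 1)) ∧
      ∀ p : ℕ, 2 ≤ p →
        {μ : {ν : ProbabilityMeasure UnitAddCircle //
              (ν : Measure UnitAddCircle).map (fun x : UnitAddCircle => p • x)
                = (ν : Measure UnitAddCircle)} |
          (∀ x : UnitAddCircle, (μ.1 : Measure UnitAddCircle) {x} = 0) ∧
          ∀ g : C(UnitAddCircle, ℝ),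
            Tendsto (fun n : ℕ => ∫ x, g x ∂((μ.1 : Measure UnitAddCircle).map
              (fun x : UnitAddCircle => ((c n : ℕ) : ℤ) • x))) atTop (𝓝 (∫ x, g x))}
          ∈ residual _ := by
  set η : ℝ := ε / (1 + ε) with hη
  have hη0 : 0 < η := by positivity
  have hη1 : (1 - η) * (1 + ε) = 1 := by rw [hη]; field_simp; ring
  have hη2 : 0 < 1 - η := by
    rw [hη]
    have : ε / (1 + ε) < 1 := by rw [div_lt_one (by positivity)]; linarith
    linarith
  obtain ⟨B, hBcard, hB⟩ := generic_set η hη0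
  -- the good integers
  obtain ⟨C, hC⟩ : ∃ C : Set ℕ, ∀ c : ℕ, c ∈ C ↔ 1 ≤ c ∧ c ∉ B := ⟨_, fun c => Iff.rfl⟩
  have hcount : ∀ N : ℕ, (1 - η) * N ≤ (Nat.count (fun c => c ∈ C) (N + 1) : ℝ) := by
    intro N
    rw [Nat.count_eq_card_filter_range]
    have h1 : (Icc 1 N) ⊆ (range (N + 1)).filter (fun c => c ∈ C)
        ∪ (range (N + 1)).filter (fun c => c ∈ B) := by
      intro c hc
      rw [mem_Icc] at hc
      rw [mem_union, mem_filter, mem_filter, mem_range, hC]
      by_cases hcB : c ∈ B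
      · right; exact ⟨by omega, hcB⟩
      · left; exact ⟨by omega, hc.1, hcB⟩
    have h2 := (card_le_card h1).trans (card_union_le _ _)
    rw [Nat.card_Icc] at h2
    have h3 : ((N : ℕ) : ℝ) ≤ (((range (N + 1)).filter (fun c => c ∈ C)).card : ℝ)
        + (((range (N + 1)).filter (fun c => c ∈ B)).card : ℝ) := by
      have h4 : N ≤ ((range (N + 1)).filter (fun c => c ∈ C)).card
        + ((range (N + 1)).filter (fun c => c ∈ B)).card := by omega
      exact_mod_cast h4
    have h5 := hBcard N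
    linarith
  have hinf : (Set.ofPred (fun c => c ∈ C)).Infinite := by
    intro hfin
    obtain ⟨N, hN⟩ := exists_nat_gt ((hfin.toFinset.card : ℝ) / (1 - η))
    rw [div_lt_iff₀ hη2] at hN
    have h1 := hcount N
    have h2 : Nat.count (fun c => c ∈ C) (N + 1) ≤ hfin.toFinset.card := by
      rw [Nat.count_eq_card_filter_range]
      apply card_le_card
      intro c hc
      rw [mem_filter] at hc
      rw [Set.Finite.mem_toFinset]
      exact hc.2
    have h3 : (Nat.count (fun c => c ∈ C) (N + 1) : ℝ) ≤ hfin.toFinset.card := by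
      exact_mod_cast h2
    linarith
  set c : ℕ → ℕ := Nat.nth (fun c => c ∈ C) with hc
  have hcmono : StrictMono c := Nat.nth_strictMono hinf
  have hcC : ∀ n, 1 ≤ c n ∧ c n ∉ B := fun n => (hC _).mp (Nat.nth_mem_of_infinite hinf n)
  refine ⟨c, hcmono, ?_, ?_⟩
  · intro n
    refine ⟨(hcC n).1, ?_⟩
    have h1 := hcount (c n)
    have h2 : Nat.count (fun c => c ∈ C) (c n + 1) = n + 1 := Nat.count_nth_succ_of_infinite hinf n
    rw [h2] at h1
    push_cast at h1
    have h3 : (c n : ℝ) = (1 + ε) * ((1 - η) * c n) := by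
      rw [← mul_assoc, mul_comm (1 + ε), hη1, one_mul]
    rw [h3]
    gcongr
  · intro p hp
    -- generic decay of the coefficients
    have hD : ∀ (k : {k : ℤ // ¬ (p : ℤ) ∣ k}) (j : ℕ),
        {μ : {ν : ProbabilityMeasure UnitAddCircle //
              (ν : Measure UnitAddCircle).map (fun x : UnitAddCircle => p • x)
                = (ν : Measure UnitAddCircle)} |
          ∃ U : Set (ProbabilityMeasure UnitAddCircle), IsOpen U ∧ μ.1 ∈ U ∧
            ∃ c₀ : ℕ, ∀ c ≥ c₀, c ∉ B → ∀ μ ∈ U ∩ PP p,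
              ‖∫ x, (fourier (k.1 * c) x : ℂ) ∂(μ : Measure UnitAddCircle)‖
                ≤ 3 * (1 / ((j : ℝ) + 1))} ∈ residual _ := fun k j =>
      residual_of_local p _ (fun V hV hVne => hB p hp k.1 k.2 j V hV hVne)
    have hE : ∀ s : ℕ,
        {μ : {ν : ProbabilityMeasure UnitAddCircle //
              (ν : Measure UnitAddCircle).map (fun x : UnitAddCircle => p • x)
                = (ν : Measure UnitAddCircle)} |
          ∃ U : Set (ProbabilityMeasure UnitAddCircle), IsOpen U ∧ μ.1 ∈ U ∧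
            ∀ κ ∈ U, ∀ z : UnitAddCircle,
              (κ : Measure UnitAddCircle).real {z} < 1 / ((s : ℝ) + 1)} ∈ residual _ := fun s =>
      residual_of_local p _ (fun V hV hVne =>
        exists_small_atoms p hp V hV hVne (1 / ((s : ℝ) + 1)) (by positivity))
    have hD2 := (countable_iInter_mem (l := residual _)).mpr fun k =>
      (countable_iInter_mem (l := residual _)).mpr fun j => hD k j
    have hE2 := (countable_iInter_mem (l := residual _)).mpr hE
    filter_upwards [hD2, hE2] with μ hμ hμE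
    constructor
    · intro z
      have h1 : ∀ s : ℕ, (μ.1 : Measure UnitAddCircle).real {z} < 1 / ((s : ℝ) + 1) := by
        intro s
        obtain ⟨U, -, hμU, hU⟩ := Set.mem_iInter.mp hμE s
        exact hU μ.1 hμU z
      have h2 : (μ.1 : Measure UnitAddCircle).real {z} ≤ 0 :=
        ge_of_tendsto' tendsto_one_div_add_atTop_nhds_zero_nat (fun s => (h1 s).le)
      have h3 : (μ.1 : Measure UnitAddCircle).real {z} = 0 := le_antisymm h2 measureReal_nonneg
      exact (measureReal_eq_zero_iff (by finiteness)).mp h3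
    · intro g
      refine tendsto_all p hp c μ.1 μ.2 ?_ g
      intro k hk
      rw [Metric.tendsto_atTop]
      intro e he
      obtain ⟨j, hj⟩ := exists_nat_gt (3 / e)
      obtain ⟨U, hU, hμU, c₀, hc₀⟩ := Set.mem_iInter.mp (Set.mem_iInter.mp hμ ⟨k, hk⟩) j
      refine ⟨c₀, fun n hn => ?_⟩
      rw [dist_zero_right]
      have hcn : c₀ ≤ c n := hn.trans (hcmono.id_le n)
      refine (hc₀ (c n) hcn (hcC n).2 μ.1 ⟨hμU, μ.2⟩).trans_lt ?_
      rw [mul_one_div, div_lt_iff₀ (by positivity)]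
      rw [div_lt_iff₀ he] at hj
      nlinarith

end Pool.Agent.DilatesP
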